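import Pool.Agent.Helper16.SYM.VRing

/-!
# Rational points on high symmetric powers of a curve
-/

namespace Pool.Agent.Helper16.SYM

open Polynomial IsLocalRing
open scoped NNReal

universe u

theorem exists_wt {A : Type*} [CommRing A] [Nontrivial A] {G : A[X][X]} (hG : G.Monic) :
    ∃ e, Wt G e := by
  refine ⟨(Finset.range G.natDegree).sup (fun l => (G.coeff l).natDegree), fun l => ?_⟩
  rcases lt_trichotomy l G.natDegree with h | h | h
  · have h1 : (G.coeff l).natDegree ≤
        (Finset.range G.natDegree).sup (fun l => (G.coeff l).natDegree) :=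
      Finset.le_sup (f := fun l => (G.coeff l).natDegree) (Finset.mem_range.mpr h)
    refine h1.trans (Nat.le_mul_of_pos_right _ (by omega))
  · have : G.coeff l = 1 := by rw [h]; exact hG
    rw [this, natDegree_one]; exact Nat.zero_le _
  · rw [coeff_eq_zero_of_natDegree_lt h, natDegree_zero]; exact Nat.zero_le _

/-- Evaluation as a double sum. -/
theorem ev2_eq_sum {A : Type*} [CommRing A] (T : A[X][X]) (w : ℕ)
    (h : ∀ l, T.coeff l ≠ 0 → (T.coeff l).natDegree < w ∧ l < w) (a b : A) :
    (T.eval (C b)).eval a = ∑ j ∈ Finset.range w, ∑ i ∈ Finset.range w,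
      (T.coeff j).coeff i * (a ^ i * b ^ j) := by
  have h1 : T.eval (C b) = ∑ j ∈ Finset.range w, T.coeff j * (C b) ^ j := by
    rw [eval_eq_sum, sum_def]
    refine Finset.sum_subset (fun j hj => ?_) (fun j _ hj => ?_)
    · rw [mem_support_iff] at hj
      exact Finset.mem_range.mpr (h j hj).2
    · rw [notMem_support_iff] at hj
      rw [hj, zero_mul]
  rw [h1, eval_finsetSum]
  refine Finset.sum_congr rfl fun j _ => ?_
  rw [eval_mul, eval_pow, eval_C]
  by_cases hj : T.coeff j = 0
  · simp [hj]
  · rw [eval_eq_sum_range' (h j hj).1, Finset.sum_mul]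
    refine Finset.sum_congr rfl fun i _ => by ring

/-- Density of rational points near a base divisor over a number field. -/
theorem curve_dense (K : Type u) [Field K] [NumberField K] {G : K[X][X]} (hG : G.Monic)
    (hr : 0 < G.natDegree)
    (hirr : Irreducible (G.map (mapRingHom (algebraMap K (AlgebraicClosure K))))) :
    ∃ N₀ : ℕ, ∀ N ≥ N₀, ∃ L : IntermediateField K (AlgebraicClosure K), FiniteDimensional K L ∧
      ∀ Γ : MvPolynomial (Fin N) L, Γ ≠ 0 → ∃ U Y : L[X], U.Monic ∧ U.natDegree = N ∧
        U ∣ (G.map (mapRingHom (algebraMap K L))).eval Y ∧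
        MvPolynomial.eval (fun i : Fin N => U.coeff i) Γ ≠ 0 := by
  classical
  set kb := AlgebraicClosure K with hkb
  have hchar : CharZero kb := charZero_of_injective_algebraMap (algebraMap K kb).injective
  have halg : Algebra.IsAlgebraic ℚ kb := Algebra.IsAlgebraic.trans ℚ K kb
  set Gb : kb[X][X] := G.map (mapRingHom (algebraMap K kb)) with hGb
  have hGbm : Gb.Monic := hG.map _
  have hGbd : Gb.natDegree = G.natDegree := hG.natDegree_map _
  obtain ⟨e, hwt⟩ := exists_wt hGbm
  obtain ⟨m, b, N₁, hb1, hb2, hb3⟩ := Pool.Agent.Helper8.SYM.exists_points hGbm (hGbd ▸ hr) hirr e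
  set w := e * (G.natDegree - 1) with hw
  refine ⟨max N₁ w, fun N hN => ?_⟩
  have hN1 : N₁ ≤ N := le_trans (le_max_left _ _) hN
  have hN2 : w ≤ N := le_trans (le_max_right _ _) hN
  set a' : Fin N → kb := fun i => ((m + (i : ℕ) : ℕ) : kb) with ha'
  set bb : Fin N → kb := fun i => b i with hbb'
  rw [hGbd] at hb3
  obtain ⟨c, hc⟩ := Pool.Agent.Helper74.SYM.exists_inverse w e a' bb
    (fun T hT hTw => by
      obtain ⟨i, hi, hne⟩ := hb3 T hT hTw
      exact ⟨⟨i, lt_of_lt_of_le hi hN1⟩, hne⟩)
    (fun he => by rw [hw, he, zero_mul])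
  -- the finite set of elements that have to be integral
  set S : Finset kb :=
    ((Finset.range (G.natDegree + 1)).biUnion fun j => (Finset.range (e * G.natDegree + 1)).image
      fun i => (Gb.coeff j).coeff i) ∪
    (Finset.univ.image bb) ∪
    (Finset.univ.image fun i : Fin N => (((derivative Gb).eval (C (bb i))).eval (a' i))⁻¹) ∪
    ((Finset.range w).biUnion fun i => (Finset.range w).biUnion fun j =>
      Finset.univ.image fun l : Fin N => c i j l) with hS
  obtain ⟨p, hp, hNp, σ, hσ⟩ := Pool.Agent.Helper26.SYM.exists_padic S N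
  have hpp : p.Prime := hp.out
  -- the valuation
  set vb : Valuation kb ℝ≥0 := (Valued.v : Valuation (PadicAlgCl p) ℝ≥0).comap σ with hvb
  have hvbn : ∀ x, ((vb x : ℝ≥0) : ℝ) = ‖σ x‖ := fun x => PadicAlgCl.valuation_coe p (σ x)
  have hvb1 : ∀ x, ‖σ x‖ ≤ 1 → vb x ≤ 1 := fun x hx => by
    rw [← NNReal.coe_le_coe, hvbn, NNReal.coe_one]; exact hx
  have hvblt : ∀ x, ‖σ x‖ < 1 ↔ vb x < 1 := fun x => by
    rw [← NNReal.coe_lt_coe, hvbn, NNReal.coe_one]
  have hSv : ∀ x ∈ S, vb x ≤ 1 := fun x hx => hvb1 x (hσ x hx)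
  have hvp : vb (p : kb) < 1 := by
    have h1 : vb (p : kb) = 1 / (p : ℝ≥0) := by
      rw [hvb, Valuation.comap_apply, map_natCast]; exact PadicAlgCl.valuation_p p
    rw [h1, div_lt_one (by exact_mod_cast hpp.pos)]
    exact_mod_cast hpp.one_lt
  have hvint : ∀ n : ℤ, ¬ ((p : ℤ) ∣ n) → vb (n : kb) = 1 := by
    intro n hn
    rw [← NNReal.coe_inj, hvbn, map_intCast, NNReal.coe_one]
    have e : ((n : ℚ_[p]) : PadicAlgCl p) = (n : PadicAlgCl p) :=
      map_intCast (algebraMap ℚ_[p] (PadicAlgCl p)) n
    rw [← e, PadicAlgCl.norm_extends, Padic.norm_intCast_eq_one_iff]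
    rw [Int.isCoprime_iff_gcd_eq_one, Int.gcd_comm]
    change Nat.Coprime p n.natAbs
    rw [Nat.Prime.coprime_iff_not_dvd hpp]
    intro hd
    exact hn (Int.natCast_dvd.mpr hd)
  have hcoef : ∀ i j, vb ((Gb.coeff j).coeff i) ≤ 1 := by
    intro i j
    have hwj := hwt j
    rw [hGbd] at hwj
    by_cases hj : j < G.natDegree + 1
    · by_cases hi : i < e * G.natDegree + 1
      · apply hSv
        rw [hS]
        simp only [Finset.mem_union, Finset.mem_biUnion, Finset.mem_image, Finset.mem_range]
        exact Or.inl (Or.inl (Or.inl ⟨j, hj, i, hi, rfl⟩))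
      · rw [coeff_eq_zero_of_natDegree_lt (p := Gb.coeff j) (n := i), map_zero]
        · exact zero_le
        · have : e * (G.natDegree - j) ≤ e * G.natDegree := Nat.mul_le_mul_left _ (Nat.sub_le _ _)
          omega
    · rw [coeff_eq_zero_of_natDegree_lt (p := Gb) (n := j) (by omega), coeff_zero, map_zero]
      exact zero_le
  -- nearby points
  obtain ⟨GRb, hGRb, hGRbd, hGRbm⟩ := exists_lift2 vb.valuationSubring Gb hGbm hcoef
  have hbS : ∀ i, vb (bb i) ≤ 1 := fun i => by
    apply hSv
    rw [hS]
    simp only [Finset.mem_union, Finset.mem_biUnion, Finset.mem_image, Finset.mem_range]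
    exact Or.inl (Or.inl (Or.inr ⟨i, Finset.mem_univ _, rfl⟩))
  have hswap : ∀ x y : kb, (Gb.map (evalRingHom x)).eval y = (Gb.eval (C y)).eval x := by
    intro x y
    have : y = evalRingHom x (C y) := by simp
    conv_lhs => rw [this]
    rw [eval_map_apply]
    rfl
  have hnear : ∀ i : Fin N, ∃ b' : kb, (Gb.map (evalRingHom (a' i + (p : kb) ^ 2))).eval b' = 0 ∧
      ‖σ b' - σ (bb i)‖ < 1 := by
    intro i
    apply Pool.Agent.Helper26.SYM.near_root σ _ (hGbm.map _)
    rw [hswap, hvblt]
    set β : vb.valuationSubring := ⟨bb i, hbS i⟩ with hβ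
    have h1 := sub_dvd_eval_sub ((m + (i : ℕ) : ℕ) + (p : vb.valuationSubring) ^ 2)
      (((m + (i : ℕ) : ℕ)) : vb.valuationSubring) (GRb.eval (C β))
    obtain ⟨q, hq⟩ := h1
    have h2 := congrArg vb.valuationSubring.subtype hq
    rw [map_sub, map_ev2, map_ev2, hGRb, map_mul, map_sub, map_add, map_pow, map_natCast,
      map_natCast] at h2
    have h3 : (Gb.eval (C (bb i))).eval (a' i) = 0 := hb1 i
    have h4 : vb.valuationSubring.subtype β = bb i := rfl
    rw [h4] at h2
    have h5 : (Gb.eval (C (bb i))).eval (a' i + (p : kb) ^ 2) =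
        (p : kb) ^ 2 * vb.valuationSubring.subtype q := by
      have : (Gb.eval (C (bb i))).eval (a' i + (p : kb) ^ 2) -
          (Gb.eval (C (bb i))).eval (a' i) =
          (a' i + (p : kb) ^ 2 - a' i) * vb.valuationSubring.subtype q := h2
      rw [h3, sub_zero] at this
      rw [this]; ring
    rw [h5, map_mul, map_pow]
    calc vb (p : kb) ^ 2 * vb (vb.valuationSubring.subtype q)
        ≤ vb (p : kb) ^ 2 * 1 := mul_le_mul_right q.2 _
      _ = vb (p : kb) ^ 2 := mul_one _
      _ < 1 := pow_lt_one₀ (zero_le) hvp (by norm_num)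
  choose b' hb'1 hb'2 using hnear
  -- the field
  set S' : Finset kb := S ∪ Finset.univ.image b' with hS'
  set L : IntermediateField K kb := IntermediateField.adjoin K (S' : Set kb) with hL
  have hfin : FiniteDimensional K L := by
    have : Finite (S' : Set kb) := inferInstance
    exact IntermediateField.finiteDimensional_adjoin fun x _ => Algebra.IsIntegral.isIntegral x
  refine ⟨L, hfin, fun Γ hΓ => ?_⟩
  have hSL : ∀ x ∈ S, x ∈ L := fun x hx =>
    IntermediateField.subset_adjoin K _ (by rw [hS', Finset.coe_union]; exact Or.inl hx)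
  have hb'L : ∀ i, b' i ∈ L := fun i => IntermediateField.subset_adjoin K _ (by
    rw [hS', Finset.coe_union]
    exact Or.inr (by simp))
  set v : Valuation L ℝ≥0 := vb.comap (algebraMap L kb) with hv
  set R := v.valuationSubring with hR
  set ι : R →+* kb := (algebraMap L kb).comp R.subtype with hι
  have hιinj : Function.Injective ι := (algebraMap L kb).injective.comp Subtype.val_injective
  have hvR : ∀ x : R, v (x : L) = vb (ι x) := fun x => rfl
  set GLp : L[X][X] := G.map (mapRingHom (algebraMap K L)) with hGL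
  have hGLb : GLp.map (mapRingHom (algebraMap L kb)) = Gb := by
    rw [hGL, hGb, Polynomial.map_map, mapRingHom_comp, ← IsScalarTower.algebraMap_eq]
  obtain ⟨GR, hGR, hGRd, hGRm⟩ := exists_lift2 R GLp (hG.map _) (fun i j => by
    change vb (algebraMap L kb ((GLp.coeff j).coeff i)) ≤ 1
    have : algebraMap L kb ((GLp.coeff j).coeff i) = (Gb.coeff j).coeff i := by
      rw [← hGLb]
      conv_rhs => rw [coeff_map, coe_mapRingHom, coeff_map]
    rw [this]; exact hcoef i j)
  have hGRb' : GR.map (mapRingHom ι) = Gb := by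
    rw [hι, ← mapRingHom_comp, ← Polynomial.map_map, hGR, hGLb]
  have hGRd' : GR.natDegree = G.natDegree := by rw [hGRd, hGL]; exact hG.natDegree_map _
  have hwtR : Wt GR e := by
    intro l
    have h1 : (GR.coeff l).natDegree = (Gb.coeff l).natDegree := by
      rw [← hGRb', coeff_map, coe_mapRingHom, natDegree_map_eq_of_injective hιinj]
    have h2 := hwt l
    rw [hGbd] at h2
    rw [h1, hGRd']; exact h2
  have hCZ : CharZero R := by
    refine ⟨fun x y hxy => ?_⟩
    have := congrArg ι hxy
    rw [map_natCast, map_natCast] at this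
    exact_mod_cast this
  -- points over R
  set aR : Fin N → R := fun i => ((m + (i : ℕ) : ℕ) : R) with haR
  set bR : Fin N → R := fun i => ⟨⟨bb i, hSL _ (by
    rw [hS]
    simp only [Finset.mem_union, Finset.mem_biUnion, Finset.mem_image, Finset.mem_range]
    exact Or.inl (Or.inl (Or.inr ⟨i, Finset.mem_univ _, rfl⟩)))⟩, hbS i⟩ with hbR
  have hb'v : ∀ i, vb (b' i - bb i) < 1 := fun i => by
    rw [← hvblt, map_sub]; exact hb'2 i
  have hb'1' : ∀ i, vb (b' i) ≤ 1 := fun i => by
    have : b' i = (b' i - bb i) + bb i := by ring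
    rw [this]
    exact (vb.map_add _ _).trans (max_le (hb'v i).le (hbS i))
  set b'R : Fin N → R := fun i => ⟨⟨b' i, hb'L i⟩, hb'1' i⟩ with hb'R
  have hιa : ∀ i, ι (aR i) = a' i := fun i => by rw [haR, ha']; simp
  have hιb : ∀ i, ι (bR i) = bb i := fun i => rfl
  have hιp : ι (p : R) = (p : kb) := map_natCast ι p
  have hιb' : ∀ i, ι (b'R i) = b' i := fun i => rfl
  have hcS : ∀ i j l, i < w → j < w → c i j l ∈ S := by
    intro i j l hi hj
    rw [hS]
    simp only [Finset.mem_union, Finset.mem_biUnion, Finset.mem_image, Finset.mem_range]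
    exact Or.inr ⟨i, hi, j, hj, l, Finset.mem_univ _, rfl⟩
  set cR : ℕ → ℕ → Fin N → R := fun i j l =>
    if h : i < w ∧ j < w then ⟨⟨c i j l, hSL _ (hcS i j l h.1 h.2)⟩, hSv _ (hcS i j l h.1 h.2)⟩
    else 0 with hcR
  have hιc : ∀ i j l, i < w → j < w → ι (cR i j l) = c i j l := by
    intro i j l hi hj
    have : cR i j l = ⟨⟨c i j l, hSL _ (hcS i j l hi hj)⟩, hSv _ (hcS i j l hi hj)⟩ := by
      rw [hcR]; simp only [hi, hj, and_self, dite_true]
    rw [this]; rfl
  have hwlt : ∀ i j, i + e * j + 1 ≤ w → i < w ∧ j < w := by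
    intro i j h
    refine ⟨by omega, ?_⟩
    have he : 1 ≤ e := by
      by_contra h0
      have : e = 0 := by omega
      rw [hw, this, zero_mul] at h
      omega
    have : j ≤ e * j := Nat.le_mul_of_pos_left _ he
    omega
  have hcid : ∀ i j i' j', i + e * j + 1 ≤ w → i' + e * j' + 1 ≤ w →
      ∑ l, cR i j l * (aR l ^ i' * bR l ^ j') = if i = i' ∧ j = j' then 1 else 0 := by
    intro i j i' j' h1 h2
    apply hιinj
    rw [map_sum]
    have h3 := hc i j i' j' h1 h2
    have h4 : ι (if i = i' ∧ j = j' then 1 else 0) = if i = i' ∧ j = j' then 1 else 0 := by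
      split_ifs
      · exact map_one _
      · exact map_zero _
    rw [h4, ← h3]
    refine Finset.sum_congr rfl fun l _ => ?_
    rw [map_mul, map_mul, map_pow, map_pow, hιa, hιb, hιc i j l (hwlt i j h1).1 (hwlt i j h1).2]
  have hloc := local_dense (R := R) hGRm (hGRd'.symm ▸ hr) hwtR (N := N)
    (by rw [hGRd']; omega) p hpp.ne_zero
    ((mem_max_iff_vr v _).mpr (by
      rw [hvR, map_natCast]; exact hvp))
    (sep_vr v _ (by rw [hvR, map_natCast]; exact hvp))
    aR bR b'R
    (by
      intro i j hij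
      rw [isUnit_iff_vr, hvR, map_sub, hιa, hιa]
      have : a' i - a' j = (((i : ℕ) : ℤ) - ((j : ℕ) : ℤ) : ℤ) := by
        rw [ha']; push_cast; ring
      rw [this]
      apply hvint
      intro hd
      have h1 : (((i : ℕ) : ℤ) - ((j : ℕ) : ℤ)) ≠ 0 := by
        intro h0
        apply hij
        apply Fin.ext
        omega
      have h2 := Int.le_of_dvd (abs_pos.mpr h1) ((dvd_abs _ _).mpr hd)
      have h3 : |((i : ℕ) : ℤ) - ((j : ℕ) : ℤ)| < p := by
        rw [abs_lt]
        have := i.2
        have := j.2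
        omega
      omega)
    (by
      intro i
      apply hιinj
      rw [map_ev2, hGRb', hιa, hιb, map_zero]
      exact hb1 i)
    (by
      intro i
      rw [isUnit_iff_vr, hvR, map_ev2', hGRb', hιa, hιb]
      set D := ((derivative Gb).eval (C (bb i))).eval (a' i) with hD
      have hD0 : D ≠ 0 := hb2 i
      have h1 : vb D⁻¹ ≤ 1 := by
        apply hSv
        rw [hS]
        simp only [Finset.mem_union, Finset.mem_biUnion, Finset.mem_image, Finset.mem_range]
        exact Or.inl (Or.inr ⟨i, Finset.mem_univ _, rfl⟩)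
      have h2 : vb D ≤ 1 := by
        have h3 : D = ι (((derivative GR).eval (C (bR i))).eval (aR i)) := by
          rw [map_ev2', hGRb', hιa, hιb]
        rw [h3, ← hvR]
        exact (((derivative GR).eval (C (bR i))).eval (aR i)).2
      rw [map_inv₀] at h1
      refine le_antisymm h2 ?_
      have h4 : vb D ≠ 0 := (vb.ne_zero_iff).mpr hD0
      exact (inv_le_one₀ (pos_iff_ne_zero.mpr h4)).mp h1)
    (by
      intro i
      apply hιinj
      rw [map_ev2, hGRb', map_add, map_pow, hιp, hιa, hιb', map_zero, ← hswap]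
      exact hb'1 i)
    (by
      intro i
      rw [mem_max_iff_vr, hvR, map_sub, hιb, hιb']
      exact hb'v i)
    (by
      intro T hT hTw
      rw [hGRd', ← hw] at hTw
      by_contra hcon
      push Not at hcon
      obtain ⟨j₀, hj₀⟩ : ∃ j, T.coeff j ≠ 0 := by
        by_contra h; push Not at h; exact hT (Polynomial.ext fun j => by rw [h j, coeff_zero])
      obtain ⟨i₀, hi₀⟩ : ∃ i, (T.coeff j₀).coeff i ≠ 0 := by
        by_contra h; push Not at h
        exact hj₀ (Polynomial.ext fun i => by rw [h i, coeff_zero])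
      have hij₀ : i₀ + e * j₀ + 1 ≤ w := by
        have h1 := hTw j₀ hj₀
        have h2 : i₀ ≤ (T.coeff j₀).natDegree := le_natDegree_of_ne_zero hi₀
        omega
      have hTlt : ∀ l, T.coeff l ≠ 0 → (T.coeff l).natDegree < w ∧ l < w := fun l hl =>
        hwlt _ _ (hTw l hl)
      have h1 : ∑ l, residue R (cR i₀ j₀ l) *
          (T.eval (C (residue R (bR l)))).eval (residue R (aR l)) = 0 :=
        Finset.sum_eq_zero fun l _ => by rw [hcon l, mul_zero]
      have h2 : ∑ l, residue R (cR i₀ j₀ l) *
          (T.eval (C (residue R (bR l)))).eval (residue R (aR l)) =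
          ∑ j ∈ Finset.range w, ∑ i ∈ Finset.range w, (T.coeff j).coeff i *
            residue R (∑ l, cR i₀ j₀ l * (aR l ^ i * bR l ^ j)) := by
        have h3 : ∀ l, residue R (cR i₀ j₀ l) *
            (T.eval (C (residue R (bR l)))).eval (residue R (aR l)) =
            ∑ j ∈ Finset.range w, ∑ i ∈ Finset.range w, (T.coeff j).coeff i *
              residue R (cR i₀ j₀ l * (aR l ^ i * bR l ^ j)) := by
          intro l
          rw [ev2_eq_sum T w hTlt, Finset.mul_sum]
          refine Finset.sum_congr rfl fun j _ => ?_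
          rw [Finset.mul_sum]
          refine Finset.sum_congr rfl fun i _ => ?_
          rw [map_mul, map_mul, map_pow, map_pow]; ring
        simp only [h3]
        rw [Finset.sum_comm]
        refine Finset.sum_congr rfl fun j _ => ?_
        rw [Finset.sum_comm]
        refine Finset.sum_congr rfl fun i _ => ?_
        rw [map_sum, Finset.mul_sum]
      rw [h2, Finset.sum_eq_single j₀, Finset.sum_eq_single i₀] at h1
      · rw [hcid i₀ j₀ i₀ j₀ hij₀ hij₀] at h1
        simp at h1
        exact hi₀ h1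
      · intro i _ hi
        by_cases h5 : (T.coeff j₀).coeff i = 0
        · rw [h5, zero_mul]
        · have h6 : i + e * j₀ + 1 ≤ w := by
            have h1 := hTw j₀ hj₀
            have h2 : i ≤ (T.coeff j₀).natDegree := le_natDegree_of_ne_zero h5
            omega
          rw [hcid i₀ j₀ i j₀ hij₀ h6, if_neg (fun h => hi h.1.symm), map_zero, mul_zero]
      · intro h; exact absurd (Finset.mem_range.mpr (hwlt _ _ hij₀).1) h
      · intro j _ hj
        refine Finset.sum_eq_zero fun i _ => ?_
        by_cases h5 : (T.coeff j).coeff i = 0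
        · rw [h5, zero_mul]
        · have hjne : T.coeff j ≠ 0 := fun h => h5 (by rw [h, coeff_zero])
          have h6 : i + e * j + 1 ≤ w := by
            have h1 := hTw j hjne
            have h2 : i ≤ (T.coeff j).natDegree := le_natDegree_of_ne_zero h5
            omega
          rw [hcid i₀ j₀ i j hij₀ h6, if_neg (fun h => hj h.2.symm), map_zero, mul_zero]
      · intro h; exact absurd (Finset.mem_range.mpr (hwlt _ _ hij₀).2) h)
  -- clear denominators in Γ
  obtain ⟨⟨d, hd⟩, hdΓ⟩ := IsLocalization.exist_integer_multiples (nonZeroDivisors R)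
    Γ.support (fun s => Γ.coeff s)
  have hd0 : (d : L) ≠ 0 := by
    have := nonZeroDivisors.ne_zero hd
    exact fun h => this (Subtype.ext h)
  set ΓR : MvPolynomial (Fin N) R := ∑ s ∈ Γ.support.attach,
    MvPolynomial.monomial s.1 (hdΓ s.1 s.2).choose with hΓR
  have hΓmap : MvPolynomial.map R.subtype ΓR = MvPolynomial.C (d : L) * Γ := by
    rw [hΓR, map_sum]
    conv_rhs => rw [← MvPolynomial.support_sum_monomial_coeff Γ, Finset.mul_sum]
    rw [← Finset.sum_attach Γ.support]
    refine Finset.sum_congr rfl fun s _ => ?_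
    rw [MvPolynomial.map_monomial, MvPolynomial.C_mul_monomial]
    congr 1
    exact ((hdΓ s.1 s.2).choose_spec).trans (Algebra.smul_def _ _)
  have hΓR0 : ΓR ≠ 0 := by
    intro h
    rw [h, map_zero] at hΓmap
    rcases mul_eq_zero.mp hΓmap.symm with h1 | h1
    · exact hd0 (MvPolynomial.C_eq_zero.mp h1)
    · exact hΓ h1
  obtain ⟨U, Y, hU1, hU2, hU3, hU4⟩ := hloc ΓR hΓR0
  refine ⟨U.map R.subtype, Y.map R.subtype, hU1.map _, ?_, ?_, ?_⟩
  · rw [hU1.natDegree_map]; exact hU2
  · have h1 := Polynomial.map_dvd R.subtype hU3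
    have h2 : (GR.eval Y).map R.subtype = GLp.eval (Y.map R.subtype) := by
      rw [← hGR, ← coe_mapRingHom, ← eval_map_apply]
    rw [h2] at h1
    exact h1
  · intro h
    have h1 : MvPolynomial.eval (fun i : Fin N => (U.map R.subtype).coeff i)
        (MvPolynomial.map R.subtype ΓR) = R.subtype (MvPolynomial.eval
          (fun i : Fin N => U.coeff i) ΓR) := by
      rw [MvPolynomial.eval_map, MvPolynomial.eval, ← MvPolynomial.coe_eval₂Hom]
      simp only [coeff_map]
      rw [MvPolynomial.coe_eval₂Hom, MvPolynomial.coe_eval₂Hom, MvPolynomial.hom_eval₂]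
      rfl
    rw [hΓmap, map_mul, MvPolynomial.eval_C, h, mul_zero] at h1
    exact hU4 (Subtype.val_injective h1.symm)

end Pool.Agent.Helper16.SYM
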