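import Pool.Agent.Helper16.SYM.SymPow

/-!
# Symmetric powers: definitions

Local part: a curve `G(t, z) = 0` over a local ring `R` (`G : R[X][X]` monic in `z`, the inner
variable is `t`), a base divisor `(U₀, Y₀)` on it (`U₀` monic in `t`, `z = Y₀(t)` modulo `U₀`)
and the divisors `(U, Y)` near it.
-/

namespace Pool.Agent.Helper16.SYM

open Polynomial IsLocalRing
open scoped TensorProduct

universe u

section LocalPart

variable {R : Type*} [CommRing R]

/-- The weight bound: the coefficient of `z ^ l` has degree at most `e (r - l)` in `t`, where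
`r` is the degree of `G` in `z`. -/
def Wt (G : R[X][X]) (e : ℕ) : Prop :=
  ∀ l, (G.coeff l).natDegree ≤ e * (G.natDegree - l)

/-- The quotient of `G(z) - G(Y)` by `z - Y`. -/
noncomputable def quo (G : R[X][X]) (Y : R[X]) : R[X][X] := G /ₘ (X - C Y)

/-- Unisolvence: no nonzero polynomial of weighted degree less than `e (r - 1)` vanishes
on `(U, Y)`. -/
def Unis (r e : ℕ) (U Y : R[X]) : Prop :=
  ∀ T : R[X][X], T ≠ 0 → (∀ l, T.coeff l ≠ 0 → (T.coeff l).natDegree + e * l + 1 ≤ e * (r - 1)) →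
    ¬ (U ∣ T.eval Y)

variable [IsLocalRing R]

/-- The hypotheses on the base divisor. -/
structure Base (G : R[X][X]) (e : ℕ) (U₀ Y₀ : R[X]) : Prop where
  monic : G.Monic
  pos : 0 < G.natDegree
  wt : Wt G e
  monicU : U₀.Monic
  dvd : U₀ ∣ G.eval Y₀
  unram : IsCoprime (((derivative G).eval Y₀).map (residue R)) (U₀.map (residue R))
  unis : Unis G.natDegree e (U₀.map (residue R)) (Y₀.map (residue R))
  big : e * (G.natDegree - 1) ≤ 2 * U₀.natDegree

/-- `(U, Y)` is a divisor on the curve near the base divisor `(U₀, Y₀)`. -/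
structure Near (G : R[X][X]) (U₀ Y₀ U Y : R[X]) : Prop where
  monic : U.Monic
  dvd : U ∣ G.eval Y
  resU : U.map (residue R) = U₀.map (residue R)
  resY : U₀.map (residue R) ∣ (Y - Y₀).map (residue R)

end LocalPart

section TensorPart

/-- The `K`-algebra homomorphism `a₁ ⊗ ... ⊗ a_N ↦ φ₁(a₁) ... φ_N(a_N)`. -/
noncomputable def evT {K : Type*} [CommRing K] {A : Type*} [CommRing A] [Algebra K A] {N : ℕ}
    {Ω : Type*} [CommRing Ω] [Algebra K Ω] (φ : Fin N → (A →ₐ[K] Ω)) :
    (⨂[K] _ : Fin N, A) →ₐ[K] Ω :=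
  PiTensorProduct.liftAlgHom
    ((MultilinearMap.mkPiAlgebra K (Fin N) Ω).compLinearMap fun i => (φ i).toLinearMap)
    (by simp) (by intro x y; simp [Finset.prod_mul_distrib])

theorem evT_tprod {K : Type*} [CommRing K] {A : Type*} [CommRing A] [Algebra K A] {N : ℕ}
    {Ω : Type*} [CommRing Ω] [Algebra K Ω] (φ : Fin N → (A →ₐ[K] Ω)) (a : Fin N → A) :
    evT φ (PiTensorProduct.tprod K a) = ∏ i, φ i (a i) := by
  simp [evT, PiTensorProduct.liftAlgHom]

/-- `B` has enough homomorphisms over `K` to one finite extension of `K`. -/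
def PDA (K : Type u) [Field K] (B : Type u) [CommRing B] [Algebra K B] : Prop :=
  ∃ (L : Type u) (_ : Field L) (_ : Algebra K L), FiniteDimensional K L ∧
    ∀ b : B, (∀ φ : B →ₐ[K] L, φ b = 0) → b = 0

end TensorPart

end Pool.Agent.Helper16.SYM
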