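import Mathlib

/-!
# Determinants in `AdjoinRoot G`

`G` monic over a commutative ring `A`. For `x, θ` in `AdjoinRoot G` we consider the determinant
`D x θ` of the family `x, θ, zθ, ..., z^(r-2) θ` in the power basis.
-/

namespace Pool.Agent.Helper16.SYM

open Polynomial Module

section General

variable {A M : Type*} [CommRing A] [AddCommGroup M] [Module A M] {ι : Type*} [Fintype ι]
  [DecidableEq ι]

theorem sum_det_update (b : Basis ι A M) (v : ι → M) (x : M) :
    ∑ j, b.det (Function.update v j x) • v j = b.det v • x := by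
  have key : ∀ i, b.repr (∑ j, b.det (Function.update v j x) • v j) i = b.repr (b.det v • x) i := by
    intro i
    have h := congrFun (Matrix.mulVec_cramer (b.toMatrix v) (b.repr x)) i
    rw [map_smul, Finsupp.smul_apply, map_sum, Finsupp.finsetSum_apply]
    rw [Basis.det_apply]
    simp only [Pi.smul_apply] at h
    rw [← h, Matrix.mulVec, dotProduct]
    refine Finset.sum_congr rfl fun j _ => ?_
    rw [map_smul, Finsupp.smul_apply, smul_eq_mul, Basis.det_apply, Basis.toMatrix_update,
      Matrix.cramer_apply, Basis.toMatrix_apply, mul_comm]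
  exact b.ext_elem key

theorem det_congr_mod (b : Basis ι A M) (δ : A) (v w u : ι → M) (h : ∀ i, v i = w i + δ • u i) :
    δ ∣ b.det v - b.det w := by
  rw [← Ideal.mem_span_singleton, ← Ideal.Quotient.mk_eq_mk_iff_sub_mem, Basis.det_apply,
    Basis.det_apply, RingHom.map_det, RingHom.map_det]
  congr 1
  ext i j
  rw [RingHom.mapMatrix_apply, RingHom.mapMatrix_apply, Matrix.map_apply, Matrix.map_apply,
    Basis.toMatrix_apply, Basis.toMatrix_apply, h, map_add, map_smul, Finsupp.add_apply,
    Finsupp.smul_apply, smul_eq_mul, Ideal.Quotient.mk_eq_mk_iff_sub_mem, add_sub_cancel_left,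
    Ideal.mem_span_singleton]
  exact dvd_mul_right _ _

end General

variable {A : Type*} [CommRing A] {G : A[X]}

/-- The power basis of `AdjoinRoot G`. -/
noncomputable def pbas (hG : G.Monic) : Basis (Fin G.natDegree) A (AdjoinRoot G) :=
  (AdjoinRoot.powerBasis' hG).basis

theorem pbas_apply (hG : G.Monic) (i : Fin G.natDegree) :
    pbas hG i = AdjoinRoot.root G ^ (i : ℕ) := by
  unfold pbas
  exact (AdjoinRoot.powerBasis' hG).basis_eq_pow i

/-- The family `x, θ, zθ, z^2θ, ...`. -/
noncomputable def cols (G : A[X]) (x θ : AdjoinRoot G) : Fin G.natDegree → AdjoinRoot G :=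
  fun j => if (j : ℕ) = 0 then x else AdjoinRoot.root G ^ ((j : ℕ) - 1) * θ

/-- The determinant of `x, θ, zθ, z^2θ, ...`. -/
noncomputable def DD (hG : G.Monic) (x θ : AdjoinRoot G) : A :=
  (pbas hG).det (cols G x θ)

theorem cols_eq_update (hr : 0 < G.natDegree) (x θ : AdjoinRoot G) :
    cols G x θ = Function.update (cols G 0 θ) ⟨0, hr⟩ x := by
  funext j
  by_cases h : j = ⟨0, hr⟩
  · subst h; simp [cols]
  · have : (j : ℕ) ≠ 0 := fun h' => h (Fin.ext h')
    simp [cols, h, this]

/-- `DD` as a linear map in the first variable. -/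
noncomputable def DDlin (hG : G.Monic) (hr : 0 < G.natDegree) (θ : AdjoinRoot G) :
    AdjoinRoot G →ₗ[A] A :=
  (pbas hG).det.toMultilinearMap.toLinearMap (cols G 0 θ) ⟨0, hr⟩

theorem DDlin_apply (hG : G.Monic) (hr : 0 < G.natDegree) (x θ : AdjoinRoot G) :
    DDlin hG hr θ x = DD hG x θ := by
  unfold DDlin DD
  rw [cols_eq_update hr x θ]
  rfl

theorem DD_root_pow_mul (hG : G.Monic) (k : ℕ) (hk : k + 1 < G.natDegree) (θ : AdjoinRoot G) :
    DD hG (AdjoinRoot.root G ^ k * θ) θ = 0 := by
  unfold DD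
  refine AlternatingMap.map_eq_zero_of_eq _ _ (i := ⟨0, by omega⟩) (j := ⟨k + 1, hk⟩) ?_ ?_
  · simp [cols]
  · intro h
    have := congrArg Fin.val h
    simp at this

theorem DD_one (hG : G.Monic) [Nontrivial A] (y : A) :
    DD hG 1 (AdjoinRoot.root G - AdjoinRoot.of G y) = 1 := by
  unfold DD
  rw [Basis.det_apply]
  have hcol : ∀ j : Fin G.natDegree, cols G 1 (AdjoinRoot.root G - AdjoinRoot.of G y) j =
      pbas hG j - if h : (j : ℕ) = 0 then 0 else
        y • pbas hG ⟨(j : ℕ) - 1, by omega⟩ := by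
    intro j
    by_cases h : (j : ℕ) = 0
    · simp [cols, h, pbas_apply]
    · simp only [cols, h, if_false, dite_false, pbas_apply]
      obtain ⟨m, hm⟩ : ∃ m, (j : ℕ) = m + 1 := ⟨(j : ℕ) - 1, by omega⟩
      rw [hm, Nat.add_sub_cancel, Algebra.smul_def, AdjoinRoot.algebraMap_eq]
      ring
  rw [Matrix.det_of_isUpperTriangular]
  · apply Finset.prod_eq_one
    intro i _
    rw [Basis.toMatrix_apply, hcol, map_sub, Finsupp.sub_apply, Basis.repr_self,
      Finsupp.single_eq_same]
    by_cases h : (i : ℕ) = 0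
    · simp [h]
    · simp only [h, dite_false]
      rw [map_smul, Basis.repr_self, Finsupp.smul_apply, Finsupp.single_eq_of_ne]
      · simp
      · intro h'
        have := congrArg Fin.val h'
        simp at this
        omega
  · intro i j hij
    simp only [id] at hij
    rw [Basis.toMatrix_apply, hcol, map_sub, Finsupp.sub_apply, Basis.repr_self,
      Finsupp.single_eq_of_ne (by exact fun h => (ne_of_gt hij) h)]
    by_cases h : (j : ℕ) = 0
    · simp [h]
    · simp only [h, dite_false]
      rw [map_smul, Basis.repr_self, Finsupp.smul_apply, Finsupp.single_eq_of_ne]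
      · simp
      · intro h'
        have := congrArg Fin.val h'
        have h2 : (j : ℕ) < (i : ℕ) := hij
        simp at this
        omega

theorem norm_eq_DD (hG : G.Monic) [Nontrivial A] (y : A)
    (φ : AdjoinRoot G) :
    Algebra.norm A φ = DD hG φ (φ * (AdjoinRoot.root G - AdjoinRoot.of G y)) := by
  have h := Basis.det_comp (pbas hG) (LinearMap.mulLeft A φ)
    (cols G 1 (AdjoinRoot.root G - AdjoinRoot.of G y))
  have h1 : (pbas hG).det (cols G 1 (AdjoinRoot.root G - AdjoinRoot.of G y)) = 1 :=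
    DD_one hG y
  rw [h1, mul_one] at h
  rw [Algebra.norm_apply]
  have h2 : LinearMap.det (LinearMap.mulLeft A φ) =
      LinearMap.det ((Algebra.lmul A (AdjoinRoot G)) φ) := rfl
  rw [← h2, ← h]
  unfold DD
  congr 1
  funext j
  simp only [Function.comp, cols, LinearMap.mulLeft_apply]
  split_ifs
  · rw [mul_one]
  · ring

theorem DD_smul_right (hG : G.Monic) (hr : 0 < G.natDegree) (v : A) (x θ : AdjoinRoot G) :
    DD hG x (AdjoinRoot.of G v * θ) = v ^ (G.natDegree - 1) * DD hG x θ := by
  unfold DD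
  have h : cols G x (AdjoinRoot.of G v * θ) =
      fun j : Fin G.natDegree => (if (j : ℕ) = 0 then 1 else v) • cols G x θ j := by
    funext j
    simp only [cols]
    split_ifs
    · rw [one_smul]
    · rw [Algebra.smul_def, AdjoinRoot.algebraMap_eq]; ring
  rw [h, ← AlternatingMap.coe_multilinearMap, MultilinearMap.map_smul_univ, smul_eq_mul]
  congr 1
  obtain ⟨m, hm⟩ : ∃ m, G.natDegree = m + 1 := ⟨G.natDegree - 1, by omega⟩
  have : ∀ (n : ℕ) (hn : n = m + 1), ∏ i : Fin n, (if (i : ℕ) = 0 then 1 else v) = v ^ (n - 1) := by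
    intro n hn
    subst hn
    rw [Fin.prod_univ_succ]
    simp
  exact this _ hm

/-- Cramer's rule. -/
theorem exists_cramer (hG : G.Monic) (hr : 0 < G.natDegree) (x θ : AdjoinRoot G) :
    ∃ w : AdjoinRoot G, AdjoinRoot.of G (DD hG 1 θ) * x = AdjoinRoot.of G (DD hG x θ) + θ * w := by
  classical
  have h := sum_det_update (pbas hG) (cols G 1 θ) x
  rw [Algebra.smul_def, AdjoinRoot.algebraMap_eq] at h
  refine ⟨∑ j ∈ Finset.univ.erase (⟨0, hr⟩ : Fin G.natDegree),
    AdjoinRoot.of G ((pbas hG).det (Function.update (cols G 1 θ) j x)) *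
      AdjoinRoot.root G ^ ((j : ℕ) - 1), ?_⟩
  have h0 : Function.update (cols G 1 θ) ⟨0, hr⟩ x = cols G x θ := by
    rw [cols_eq_update hr 1 θ, Function.update_idem, ← cols_eq_update]
  unfold DD
  rw [← h, ← Finset.add_sum_erase _ _ (Finset.mem_univ (⟨0, hr⟩ : Fin G.natDegree)), h0]
  congr 1
  · rw [Algebra.smul_def, AdjoinRoot.algebraMap_eq]
    simp [cols]
  · rw [Finset.mul_sum]
    refine Finset.sum_congr rfl fun j hj => ?_
    have hj0 : (j : ℕ) ≠ 0 := fun h' => (Finset.ne_of_mem_erase hj) (Fin.ext h')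
    rw [Algebra.smul_def, AdjoinRoot.algebraMap_eq]
    simp only [cols, hj0, if_false]
    ring

theorem DD_congr (hG : G.Monic) (δ : A) (x x' x'' θ θ' θ'' : AdjoinRoot G)
    (h : x = x' + AdjoinRoot.of G δ * x'') (h' : θ = θ' + AdjoinRoot.of G δ * θ'') :
    δ ∣ DD hG x θ - DD hG x' θ' := by
  refine det_congr_mod (pbas hG) δ _ _ (cols G x'' θ'') fun j => ?_
  rw [Algebra.smul_def, AdjoinRoot.algebraMap_eq]
  simp only [cols]
  split_ifs
  · exact h
  · rw [h']; ring

theorem DD_of_one (hG : G.Monic) (hr : 0 < G.natDegree) (v : A) (θ : AdjoinRoot G) :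
    DD hG (AdjoinRoot.of G v) θ = v * DD hG 1 θ := by
  rw [← DDlin_apply hG hr, ← DDlin_apply hG hr]
  have : AdjoinRoot.of G v = v • (1 : AdjoinRoot G) := by
    rw [Algebra.smul_def, mul_one]; rfl
  rw [this, map_smul, smul_eq_mul]

end Pool.Agent.Helper16.SYM
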