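import Pool.Agent.Helper16.SYM.Defs

/-!
# Tools for the master theorem: roots as families, tensor powers of homomorphisms, denominators
-/

namespace Pool.Agent.Helper16.SYM

open Polynomial
open scoped TensorProduct

universe u

/-- Two families with the same multiset of values differ by a permutation. -/
theorem exists_perm {α : Type*} {N : ℕ} (f g : Fin N → α)
    (h : Multiset.map f Finset.univ.val = Multiset.map g Finset.univ.val) :
    ∃ τ : Equiv.Perm (Fin N), ∀ i, f i = g (τ i) := by
  classical
  have hc : ∀ (f : Fin N → α) (c : α), Fintype.card {a // f a = c} =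
      Multiset.count c (Multiset.map f Finset.univ.val) := by
    intro f c
    rw [Multiset.count_map, Fintype.card_subtype, Finset.card_def, Finset.filter_val]
    congr 1
    exact Multiset.filter_congr fun x _ => eq_comm
  refine ⟨Equiv.ofFiberEquiv (fun c => Fintype.equivOfCardEq ((hc f c).trans ((congrArg _ h).trans (hc g c).symm))), fun i => ?_⟩
  exact (Equiv.ofFiberEquiv_map _ i).symm

/-- The roots of a monic polynomial as a family. -/
theorem exists_roots_fin {k : Type*} [Field k] [IsAlgClosed k] {U : k[X]} (hU : U.Monic) {N : ℕ}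
    (hN : U.natDegree = N) : ∃ t : Fin N → k, U = ∏ i, (X - C (t i)) := by
  classical
  have h1 := (IsAlgClosed.splits U).eq_prod_roots_of_monic hU
  have h2 : U.roots.card = N := by rw [splits_iff_card_roots.mp (IsAlgClosed.splits U), hN]
  obtain ⟨l, hl⟩ : ∃ l : List k, (l : Multiset k) = U.roots := ⟨_, Multiset.coe_toList _⟩
  have h3 : l.length = N := by rw [← h2, ← hl, Multiset.coe_card]
  subst h3
  refine ⟨fun i => l[i.val], ?_⟩
  rw [Fin.prod_univ_fun_getElem l (fun x => X - C x)]
  rw [h1, ← hl, Multiset.map_coe, Multiset.prod_coe]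

/-- The `N`-th tensor power of an algebra homomorphism. -/
noncomputable def mapT {K : Type*} [CommRing K] {A B : Type*} [CommRing A] [Algebra K A]
    [CommRing B] [Algebra K B] (N : ℕ) (ψ : A →ₐ[K] B) :
    (⨂[K] _ : Fin N, A) →ₐ[K] (⨂[K] _ : Fin N, B) :=
  PiTensorProduct.liftAlgHom
    ((PiTensorProduct.tprod K).compLinearMap fun _ : Fin N => ψ.toLinearMap)
    (by
      rw [MultilinearMap.compLinearMap_apply, PiTensorProduct.one_def]
      congr 1
      funext i
      simp)
    (by
      intro x y
      rw [MultilinearMap.compLinearMap_apply, MultilinearMap.compLinearMap_apply,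
        MultilinearMap.compLinearMap_apply, PiTensorProduct.tprod_mul_tprod]
      congr 1
      funext i
      simp)

section MapT

variable {K : Type*} [CommRing K] {A B : Type*} [CommRing A] [Algebra K A]
  [CommRing B] [Algebra K B] {N : ℕ}

theorem mapT_tprod (ψ : A →ₐ[K] B) (a : Fin N → A) :
    mapT N ψ (PiTensorProduct.tprod K a) = PiTensorProduct.tprod K fun i => ψ (a i) := by
  simp [mapT, PiTensorProduct.liftAlgHom]

theorem mapT_eq (ψ : A →ₐ[K] B) (z : ⨂[K] _ : Fin N, A) :
    mapT N ψ z = PiTensorProduct.map (fun _ : Fin N => ψ.toLinearMap) z := by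
  induction z using PiTensorProduct.induction_on with
  | smul_tprod r f =>
    rw [map_smul, map_smul, mapT_tprod, PiTensorProduct.map_tprod]
    rfl
  | add x y hx hy => rw [map_add, map_add, hx, hy]

theorem evT_mapT {Ω : Type*} [CommRing Ω] [Algebra K Ω] (φ : Fin N → (B →ₐ[K] Ω)) (ψ : A →ₐ[K] B)
    (z : ⨂[K] _ : Fin N, A) : evT φ (mapT N ψ z) = evT (fun i => (φ i).comp ψ) z := by
  induction z using PiTensorProduct.induction_on with
  | smul_tprod r f =>
    rw [map_smul, map_smul, map_smul, mapT_tprod, evT_tprod, evT_tprod]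
    rfl
  | add x y hx hy => rw [map_add, map_add, map_add, hx, hy]

end MapT

section Den

variable {K : Type u} [Field K] {G : K[X][X]} (hG : G.Monic) (hGi : Irreducible G)

include hG hGi in
theorem exists_multiple (c : AdjoinRoot G) (hc : c ≠ 0) :
    ∃ (p : K[X]) (d : AdjoinRoot G), p ≠ 0 ∧ AdjoinRoot.of G p = c * d := by
  have hdom : IsDomain (AdjoinRoot G) := AdjoinRoot.isDomain_of_prime hGi.prime
  have hfin : Module.Finite K[X] (AdjoinRoot G) := hG.finite_adjoinRoot
  have h1 := Ideal.comap_ne_bot_of_integral_mem (R := K[X]) (I := Ideal.span {c}) hc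
    (Ideal.mem_span_singleton_self c) (Algebra.IsIntegral.isIntegral c)
  obtain ⟨p, hp, hp0⟩ := Submodule.exists_mem_ne_zero_of_ne_bot h1
  rw [Ideal.mem_comap, Ideal.mem_span_singleton] at hp
  obtain ⟨d, hd⟩ := hp
  exact ⟨p, d, hp0, hd⟩

variable {M : Type u} [Field M] [Algebra K M] {t z : M} (ht : Transcendental K t)
  (hz : G.eval₂ (aeval t : K[X] →ₐ[K] M) z = 0)

include hG hGi ht in
theorem theta_injective :
    Function.Injective (AdjoinRoot.liftAlgHom G (aeval t : K[X] →ₐ[K] M) z hz) := by
  have hdom : IsDomain (AdjoinRoot G) := AdjoinRoot.isDomain_of_prime hGi.prime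
  rw [injective_iff_map_eq_zero]
  intro c hc
  by_contra hc0
  obtain ⟨p, d, hp, hpd⟩ := exists_multiple hG hGi c hc0
  have h1 := congrArg (AdjoinRoot.liftAlgHom G (aeval t : K[X] →ₐ[K] M) z hz) hpd
  rw [map_mul, hc, zero_mul, AdjoinRoot.liftAlgHom_of] at h1
  exact hp ((transcendental_iff.mp ht) p h1)

include hG hGi in
theorem exists_den (hM : IntermediateField.adjoin K {t, z} = ⊤) (m : M) :
    ∃ (g : K[X]) (c : AdjoinRoot G), g ≠ 0 ∧
      aeval t g * m = AdjoinRoot.liftAlgHom G (aeval t : K[X] →ₐ[K] M) z hz c := by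
  set θ := AdjoinRoot.liftAlgHom G (aeval t : K[X] →ₐ[K] M) z hz with hθ
  have hof : ∀ p, θ (AdjoinRoot.of G p) = aeval t p := fun p => AdjoinRoot.liftAlgHom_of _ _ _ _ _
  let F : IntermediateField K M :=
  { carrier := {m | ∃ (g : K[X]) (c : AdjoinRoot G), g ≠ 0 ∧ aeval t g * m = θ c}
    mul_mem' := by
      rintro a b ⟨g, c, hg, h⟩ ⟨g', c', hg', h'⟩
      exact ⟨g * g', c * c', mul_ne_zero hg hg', by rw [map_mul, map_mul, ← h, ← h']; ring⟩
    add_mem' := by
      rintro a b ⟨g, c, hg, h⟩ ⟨g', c', hg', h'⟩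
      refine ⟨g * g', AdjoinRoot.of G g' * c + AdjoinRoot.of G g * c', mul_ne_zero hg hg', ?_⟩
      rw [map_mul, map_add, map_mul, map_mul, ← h, ← h', hof, hof]; ring
    algebraMap_mem' := by
      intro r
      exact ⟨1, algebraMap K _ r, one_ne_zero, by rw [map_one, one_mul, AlgHom.commutes]⟩
    inv_mem' := by
      rintro a ⟨g, c, hg, h⟩
      by_cases ha : a = 0
      · exact ⟨1, 0, one_ne_zero, by rw [ha, inv_zero, mul_zero, map_zero]⟩
      · by_cases hga : aeval t g = 0
        · refine ⟨g, 0, hg, ?_⟩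
          rw [hga, zero_mul, map_zero]
        · have hc : c ≠ 0 := by
            intro h0
            rw [h0, map_zero] at h
            exact (mul_ne_zero hga ha) h
          obtain ⟨p, d, hp, hd⟩ := exists_multiple hG hGi c hc
          refine ⟨p, d * AdjoinRoot.of G g, hp, ?_⟩
          have h1 := congrArg θ hd
          rw [hof, map_mul, ← h] at h1
          rw [h1, map_mul, hof]
          field_simp }
  have h1 : IntermediateField.adjoin K {t, z} ≤ F := by
    rw [IntermediateField.adjoin_le_iff]
    rintro x (rfl | hx)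
    · exact ⟨1, AdjoinRoot.of G X, one_ne_zero, by rw [hof, map_one, one_mul, aeval_X]⟩
    · rw [Set.mem_singleton_iff] at hx
      rw [hx]
      exact ⟨1, AdjoinRoot.root G, one_ne_zero, by
        rw [map_one, one_mul, hθ, AdjoinRoot.liftAlgHom_root]⟩
  rw [hM] at h1
  exact h1 (show m ∈ (⊤ : IntermediateField K M) from IntermediateField.mem_top)

include hG hGi ht hz in
/-- A homomorphism from an algebra of finite type to the function field of the curve factors
through the coordinate ring with one polynomial in `t` inverted. -/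
theorem exists_local {A : Type u} [CommRing A] [Algebra K A] [Algebra.FiniteType K A]
    (hM : IntermediateField.adjoin K {t, z} = ⊤) (ψ : A →ₐ[K] M) :
    ∃ g : K[X], g ≠ 0 ∧ ∃ ψ' : A →ₐ[K] Localization.Away (AdjoinRoot.of G g),
      ∀ a, ψ' a = 0 → ψ a = 0 := by
  classical
  set θ := AdjoinRoot.liftAlgHom G (aeval t : K[X] →ₐ[K] M) z hz with hθ
  have hof : ∀ p, θ (AdjoinRoot.of G p) = aeval t p := fun p => AdjoinRoot.liftAlgHom_of _ _ _ _ _
  have hdom : IsDomain (AdjoinRoot G) := AdjoinRoot.isDomain_of_prime hGi.prime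
  have hθi : Function.Injective θ := theta_injective hG hGi ht hz
  obtain ⟨S, hS⟩ := (Algebra.FiniteType.out : (⊤ : Subalgebra K A).FG)
  choose g c hg hc using fun m => exists_den hG hGi hz hM m
  set g₀ : K[X] := ∏ s ∈ S, g (ψ s) with hg₀
  have hg₀0 : g₀ ≠ 0 := Finset.prod_ne_zero_iff.mpr fun s _ => hg _
  have hg₀t : aeval t g₀ ≠ 0 := fun h => hg₀0 ((transcendental_iff.mp ht) g₀ h)
  refine ⟨g₀, hg₀0, ?_⟩
  set s₀ := AdjoinRoot.of G g₀ with hs₀
  have hu : IsUnit (θ s₀) := by rw [hof]; exact isUnit_iff_ne_zero.mpr hg₀t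
  set j : Localization.Away s₀ →ₐ[K] M := IsLocalization.Away.liftAlgHom s₀ hu with hj
  have hjx : ∀ x : AdjoinRoot G, j (algebraMap _ _ x) = θ x := fun x => by
    rw [hj, IsLocalization.Away.coe_liftAlgHom]
    exact IsLocalization.Away.lift_eq _ _ _
  have hji : Function.Injective j := by
    rw [injective_iff_map_eq_zero]
    intro x hx
    obtain ⟨n, a, ha⟩ := IsLocalization.Away.surj s₀ x
    have h1 := congrArg j ha
    rw [map_mul, hx, zero_mul, hjx] at h1
    have h2 : a = 0 := hθi (by rw [← h1, map_zero])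
    rw [h2, map_zero] at ha
    have h3 : IsUnit (algebraMap (AdjoinRoot G) (Localization.Away s₀) s₀ ^ n) :=
      (IsLocalization.Away.algebraMap_isUnit s₀).pow n
    exact (h3.mul_left_eq_zero).mp ha
  have hrange : ∀ a, ψ a ∈ j.range := by
    have h1 : Algebra.adjoin K (S : Set A) ≤ (j.range).comap ψ := by
      rw [Algebra.adjoin_le_iff]
      intro s hs
      rw [SetLike.mem_coe, Subalgebra.mem_comap, AlgHom.mem_range]
      set q : AdjoinRoot G := c (ψ s) * AdjoinRoot.of G (∏ s' ∈ S.erase s, g (ψ s')) with hq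
      refine ⟨IsLocalization.mk' (Localization.Away s₀) q
        (⟨s₀, Submonoid.mem_powers s₀⟩ : Submonoid.powers s₀), ?_⟩
      have h2 := congrArg j (IsLocalization.mk'_spec (Localization.Away s₀) q
        (⟨s₀, Submonoid.mem_powers s₀⟩ : Submonoid.powers s₀))
      rw [map_mul, hjx, hjx, hof] at h2
      have h3 : θ q = ψ s * aeval t g₀ := by
        rw [hq, map_mul, ← hc, hof, hg₀, ← Finset.mul_prod_erase S (fun s => g (ψ s)) hs, map_mul]
        ring
      rw [h3] at h2
      exact mul_right_cancel₀ hg₀t h2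
    intro a
    rw [hS] at h1
    exact h1 Algebra.mem_top
  refine ⟨(AlgEquiv.ofInjective j hji).symm.toAlgHom.comp (ψ.codRestrict j.range hrange), ?_⟩
  intro a ha
  have h1 : ψ.codRestrict j.range hrange a = 0 := by
    have : (AlgEquiv.ofInjective j hji).symm (ψ.codRestrict j.range hrange a) = 0 := ha
    exact (map_eq_zero_iff _ (AlgEquiv.ofInjective j hji).symm.injective).mp this
  exact congrArg Subtype.val h1

end Den

end Pool.Agent.Helper16.SYM
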