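import Mathlib

/-!
# Curves of geometric genus at most one
-/

namespace Pool.Agent.Helper16.SYM

universe u

/-- The function field `E` of a curve over `B` of geometric genus at most one: over the algebraic
closure `B'` of `B` the curve is dominated by an elliptic curve `y ^ 2 = x ^ 3 + a x + b`, that is,
`E` is contained in the function field `B'(x, y)`. -/
def GenusLeOne {K E : Type u} [Field K] [Field E] [Algebra K E] (B : IntermediateField K E) :
    Prop :=
  ∃ (x y : AlgebraicClosure E) (a b : algebraicClosure B (AlgebraicClosure E)),
    Transcendental B x ∧ y ^ 2 = x ^ 3 + a * x + b ∧ 4 * a ^ 3 + 27 * b ^ 2 ≠ 0 ∧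
    ∀ e : E, algebraMap E (AlgebraicClosure E) e ∈
      IntermediateField.adjoin (algebraicClosure B (AlgebraicClosure E)) {x, y}

end Pool.Agent.Helper16.SYM
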