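import Pool.Agent.Helper16.SYM.Master
import Pool.Agent.Helper16.SYM.GenusDef
import Pool.Agent.Helper45.SYM.D5
import Pool.Agent.Helper33.SYM.D4
import Pool.Agent.Helper51.SYM.LegendreData
import Pool.Agent.Helper83.SYM.Descend
import Pool.Agent.Helper55.SYM_D6

/-!
# Symmetric powers of families of curves of genus at most one over a curve
-/

namespace Pool.Agent.Helper16.SYM

open Polynomial
open scoped TensorProduct

universe u

theorem adjoin_pair_eq_top {k Ω : Type*} [Field k] [Field Ω] [Algebra k Ω] (t z : Ω)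
    (ht : t ∈ IntermediateField.adjoin k {t, z}) (hz : z ∈ IntermediateField.adjoin k {t, z}) :
    IntermediateField.adjoin k {(⟨t, ht⟩ : IntermediateField.adjoin k {t, z}), ⟨z, hz⟩} = ⊤ := by
  apply IntermediateField.map_injective (IntermediateField.adjoin k {t, z}).val
  rw [IntermediateField.adjoin_map, ← AlgHom.fieldRange_eq_map, IntermediateField.fieldRange_val]
  congr 1
  rw [Set.image_pair]
  rfl

theorem isAlgebraic_of_forall_mem {k Ω F₁ : Type*} [Field k] [Field Ω] [Field F₁] [Algebra k Ω]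
    [Algebra F₁ Ω] (F : IntermediateField k Ω) (h : ∀ a ∈ F, IsAlgebraic F₁ a) {w : Ω}
    (hw : IsAlgebraic F w) : IsAlgebraic F₁ w := by
  let i : F →+* algebraicClosure F₁ Ω :=
    { toFun := fun a => ⟨a, mem_algebraicClosure_iff.mpr (h a a.2)⟩
      map_one' := rfl
      map_mul' := fun _ _ => rfl
      map_zero' := rfl
      map_add' := fun _ _ => rfl }
  let _ : Algebra F (algebraicClosure F₁ Ω) := i.toAlgebra
  have _ : IsScalarTower F (algebraicClosure F₁ Ω) Ω := IsScalarTower.of_algebraMap_eq fun _ => rfl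
  have h1 : IsAlgebraic (algebraicClosure F₁ Ω) w := hw.tower_top _
  exact h1.restrictScalars F₁

theorem sym_core (K : Type u) [Field K] [NumberField K] (E : Type u) [Field E] [Algebra K E]
    (hK : ∀ e : E, IsAlgebraic K e → e ∈ Set.range (algebraMap K E))
    (Ω : Type u) [Field Ω] [IsAlgClosed Ω] [Algebra K Ω] [Algebra E Ω] [IsScalarTower K E Ω]
    (t x y : Ω) (Λ : (algebraicClosure K Ω)[X]) (ht : Transcendental K t) (hΛ0 : Λ ≠ 0)
    (hΛ1 : Λ ≠ 1) (hx : Transcendental (IntermediateField.adjoin K {t}) x)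
    (hy : y ^ 2 = x * (x - 1) * (x - aeval t Λ))
    (hE : ∀ e : E, algebraMap E Ω e ∈ IntermediateField.adjoin
      (algebraicClosure (IntermediateField.adjoin K {t}) Ω) {x, y})
    (A : Type u) [CommRing A] [Algebra K A] [Algebra.FiniteType K A]
    (ι : A →ₐ[K] E) (hι : Function.Injective ι) :
    ∃ N₀ : ℕ, ∀ N ≥ N₀, PDA K (symPow K A N) := by
  classical
  obtain ⟨S₀, hS₀⟩ := (Algebra.FiniteType.out : (⊤ : Subalgebra K A).FG)
  let j : A →ₐ[K] Ω := (IsScalarTower.toAlgHom K E Ω).comp ι
  set S : Finset Ω := S₀.image j with hS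
  have hSE : ∀ s ∈ S, s ∈ IntermediateField.adjoin
      (algebraicClosure (IntermediateField.adjoin K {t}) Ω) {x, y} := by
    intro s hs
    rw [hS, Finset.mem_image] at hs
    obtain ⟨a, -, rfl⟩ := hs
    exact hE (ι a)
  obtain ⟨K₁, hfin, Λ₁, d, l, Θ, η, z, G, hΛ₁, hd, hΘ, hη, hη', hS', hΘz, hηz, hG, hr, hGz, hirr⟩ :=
    Pool.Agent.Helper33.SYM.descend_data t x y Λ ht hΛ0 S hSE (2 * Λ.natDegree + 1)
  have hNF : NumberField K₁ := NumberField.of_module_finite K K₁
  have hΛdeg : Λ₁.natDegree = Λ.natDegree := by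
    have h1 := congrArg natDegree hΛ₁
    rwa [natDegree_map, natDegree_map] at h1
  have h0 : Λ₁ ≠ 0 := by
    intro h
    rw [h, Polynomial.map_zero] at hΛ₁
    exact hΛ0 ((Polynomial.map_eq_zero _).mp hΛ₁.symm)
  have h1 : Λ₁ ≠ 1 := by
    intro h
    rw [h, Polynomial.map_one] at hΛ₁
    apply hΛ1
    apply Polynomial.map_injective _ (algebraMap (algebraicClosure K Ω) Ω).injective
    rw [← hΛ₁, Polynomial.map_one]
  have haev : aeval t Λ = aeval t Λ₁ := by
    rw [aeval_def, aeval_def, ← eval_map, ← eval_map, hΛ₁]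
  have ht₁ : Transcendental K₁ t := fun h => ht (h.restrictScalars K)
  have hx₁ : Transcendental (IntermediateField.adjoin K₁ (insert t (Θ : Set Ω))) x := by
    intro h
    apply hx
    have hk : ∀ a : K₁, IsAlgebraic (IntermediateField.adjoin K {t}) (algebraMap K₁ Ω a) := by
      intro a
      have h1 : IsAlgebraic K (algebraMap K₁ Ω a) :=
        (Algebra.IsAlgebraic.isAlgebraic (R := K) a).algebraMap
      exact h1.tower_top _
    have htt : IsAlgebraic (IntermediateField.adjoin K {t}) t :=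
      isAlgebraic_algebraMap (⟨t, IntermediateField.mem_adjoin_simple_self K t⟩ :
        IntermediateField.adjoin K {t})
    have hcl : ∀ T : Set Ω, (∀ w ∈ T, IsAlgebraic (IntermediateField.adjoin K {t}) w) →
        ∀ a ∈ IntermediateField.adjoin K₁ T, IsAlgebraic (IntermediateField.adjoin K {t}) a := by
      intro T hT a ha
      induction ha using IntermediateField.adjoin_induction with
      | mem w hw => exact hT w hw
      | algebraMap a => exact hk a
      | add a b _ _ h1 h2 => exact h1.add h2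
      | inv a _ h1 => exact h1.inv
      | mul a b _ _ h1 h2 => exact h1.mul h2
    refine isAlgebraic_of_forall_mem _ (hcl _ ?_) h
    rintro w (rfl | hw)
    · exact htt
    · refine isAlgebraic_of_forall_mem _ (hcl {t} ?_) (hΘ w hw)
      intro w' hw'
      rw [Set.mem_singleton_iff] at hw'
      rw [hw']
      exact htt
  set c : K₁[X] := (X - C (l : K₁)) ^ d with hc
  have hcd : c.natDegree = d := by
    rw [hc, natDegree_pow, natDegree_X_sub_C, mul_one]
  set A₁ : Subalgebra K₁ Ω := Algebra.adjoin K₁ (S : Set Ω) with hA₁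
  have hA₁fg : A₁.FG := ⟨S, rfl⟩
  have hA₁ft : Algebra.FiniteType K₁ A₁ := (Subalgebra.fg_iff_finiteType A₁).mp hA₁fg
  have hA₁E : ∀ a ∈ A₁, a ∈ IntermediateField.adjoin K₁ ({t, x, y} ∪ (Θ : Set Ω)) := by
    have : A₁ ≤ (IntermediateField.adjoin K₁ ({t, x, y} ∪ (Θ : Set Ω))).toSubalgebra := by
      rw [hA₁, Algebra.adjoin_le_iff]
      exact fun s hs => hS' s hs
    exact fun a ha => this ha
  have htz : t ∈ IntermediateField.adjoin K₁ {t, z} :=
    IntermediateField.subset_adjoin _ _ (by simp)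
  have hzz : z ∈ IntermediateField.adjoin K₁ {t, z} :=
    IntermediateField.subset_adjoin _ _ (by simp)
  have hle : IntermediateField.adjoin K₁ (insert η (insert t (Θ : Set Ω))) ≤
      IntermediateField.adjoin K₁ {t, z} := by
    rw [IntermediateField.adjoin_le_iff]
    rintro w (rfl | rfl | hw)
    · exact hηz
    · exact htz
    · exact hΘz w hw
  obtain ⟨N₀, hN₀⟩ := master K₁ A₁ hG hr hirr (IntermediateField.adjoin K₁ {t, z})
    ⟨t, htz⟩ ⟨z, hzz⟩ (by
      intro h
      apply ht₁
      exact h.algebraMap (A := Ω))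
    (by
      apply (IntermediateField.adjoin K₁ {t, z}).val.injective
      rw [map_zero]
      change (IntermediateField.adjoin K₁ {t, z}).val.toRingHom _ = 0
      rw [hom_eval₂]
      have h3 : (IntermediateField.adjoin K₁ {t, z}).val.toRingHom.comp
          (aeval (⟨t, htz⟩ : IntermediateField.adjoin K₁ {t, z}) :
            K₁[X] →ₐ[K₁] IntermediateField.adjoin K₁ {t, z}).toRingHom =
          (aeval t : K₁[X] →ₐ[K₁] Ω).toRingHom := by
        apply Polynomial.ringHom_ext
        · intro a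
          simp
        · simp
      rw [h3]
      exact hGz)
    (adjoin_pair_eq_top t z htz hzz)
    (fun W hW => by
      obtain ⟨ψ, hψ⟩ := Pool.Agent.Helper45.SYM.escape t x y η Θ Λ₁ c h0 h1
        (by rw [hcd, hΛdeg]; exact hd) ht₁ hΘ hx₁ (by rw [← haev]; exact hy) hη hη' A₁ hA₁fg
        hA₁E W hW
      refine ⟨(IntermediateField.inclusion hle).comp ψ, fun a ha h => hψ a ha ?_⟩
      exact (IntermediateField.inclusion hle).injective (h.trans (map_zero _).symm))
  refine ⟨N₀, fun N hN => ?_⟩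
  have hjA : ∀ a, j a ∈ A₁.restrictScalars K := by
    have h3 : Algebra.adjoin K (S₀ : Set A) ≤ (A₁.restrictScalars K).comap j := by
      rw [Algebra.adjoin_le_iff]
      intro s hs
      rw [SetLike.mem_coe, Subalgebra.mem_comap, Subalgebra.mem_restrictScalars, hA₁]
      exact Algebra.subset_adjoin (Finset.mem_coe.mpr (Finset.mem_image_of_mem j hs))
    intro a
    rw [hS₀] at h3
    exact h3 Algebra.mem_top
  let f : A →ₐ[K] A₁ := j.codRestrict (A₁.restrictScalars K) hjA
  refine Helper83.SYM.descend (K₁ := K₁) f (fun n v hv => ?_) (hN₀ N hN)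
  have h2 : LinearIndependent K (ι ∘ v) := hv.map' ι.toLinearMap (LinearMap.ker_eq_bot.mpr hι)
  have h3 := Pool.Agent.Helper55.SYM.linearIndependent_of_closed (K := K) (Ω := Ω) hK K₁ n _ h2
  exact LinearIndependent.of_comp A₁.val.toLinearMap h3

theorem sym_main (K : Type u) [Field K] [NumberField K] (E : Type u) [Field E] [Algebra K E]
    (hK : ∀ e : E, IsAlgebraic K e → e ∈ Set.range (algebraMap K E))
    (B : IntermediateField K E) (htr : Algebra.trdeg K B = 1) (hB : GenusLeOne B)
    (A : Type u) [CommRing A] [Algebra K A] [Algebra.FiniteType K A]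
    (ι : A →ₐ[K] E) (hι : Function.Injective ι) :
    ∃ N₀ : ℕ, ∀ N ≥ N₀, PDA K (symPow K A N) := by
  obtain ⟨t, x, y, Λ, ht, hΛ0, hΛ1, hx, hy, hE⟩ :=
    Pool.Agent.Helper51.SYM.legendre_data B htr hB
  exact sym_core K E hK (AlgebraicClosure E) t x y Λ ht hΛ0 hΛ1 hx hy hE A ι hι

end Pool.Agent.Helper16.SYM
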