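import Pool.Agent.Helper16.SYM.PlusMain
import Pool.Agent.Helper61.SYM.Dens
import Pool.Agent.Helper12.SYM.A7

/-!
# Density near a base divisor
-/

namespace Pool.Agent.Helper16.SYM

open Polynomial IsLocalRing

/-- The polynomial of degree less than `N` with given coefficients. -/
noncomputable def polyOf {R : Type*} [CommRing R] {N : ℕ} (x : Fin N → R) : R[X] :=
  ∑ i : Fin N, C (x i) * X ^ (i : ℕ)

theorem coeff_polyOf {R : Type*} [CommRing R] {N : ℕ} (x : Fin N → R) (j : ℕ) :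
    (polyOf x).coeff j = if h : j < N then x ⟨j, h⟩ else 0 := by
  classical
  unfold polyOf
  rw [finsetSum_coeff]
  simp only [coeff_C_mul, coeff_X_pow, mul_ite, mul_one, mul_zero]
  split_ifs with h
  · rw [Finset.sum_eq_single ⟨j, h⟩]
    · simp
    · intro i _ hi
      rw [if_neg]
      intro h'
      exact hi (Fin.ext h'.symm)
    · simp
  · refine Finset.sum_eq_zero fun i _ => ?_
    rw [if_neg]
    intro h'
    exact h (h' ▸ i.2)

theorem eq_add_polyOf {R : Type*} [CommRing R] {N : ℕ} {U₀ U : R[X]} (h₀ : U₀.Monic)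
    (h : U.Monic) (hN₀ : U₀.natDegree = N) (hN : U.natDegree = N) (δ : R) (x : Fin N → R)
    (hx : ∀ i : Fin N, U.coeff i = U₀.coeff i + δ * x i) : U = U₀ + C δ * polyOf x := by
  ext j
  rw [coeff_add, coeff_C_mul, coeff_polyOf]
  split_ifs with hj
  · exact hx ⟨j, hj⟩
  · rw [mul_zero, add_zero]
    rcases Nat.lt_or_eq_of_le (not_lt.mp hj) with h1 | h1
    · rw [coeff_eq_zero_of_natDegree_lt (hN ▸ h1), coeff_eq_zero_of_natDegree_lt (hN₀ ▸ h1)]
    · have e1 : U.coeff j = 1 := by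
        rw [← h1, ← hN]; exact h
      have e2 : U₀.coeff j = 1 := by
        rw [← h1, ← hN₀]; exact h₀
      rw [e1, e2]

theorem local_dense {R : Type*} [CommRing R] [IsDomain R] [CharZero R] [IsLocalRing R]
    {G : R[X][X]} (hG : G.Monic)
    (hr : 0 < G.natDegree) {e : ℕ} (hwt : Wt G e) {N : ℕ} (hbig : e * (G.natDegree - 1) ≤ 2 * N)
    (p : ℕ) (hp0 : p ≠ 0) (hp : (p : R) ∈ maximalIdeal R)
    (hsep : ∀ x : R, (∀ k : ℕ, (p : R) ^ k ∣ x) → x = 0) (a b b' : Fin N → R)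
    (ha : ∀ i j, i ≠ j → IsUnit (a i - a j))
    (hb : ∀ i, (G.eval (C (b i))).eval (a i) = 0)
    (hd : ∀ i, IsUnit (((derivative G).eval (C (b i))).eval (a i)))
    (hb' : ∀ i, (G.eval (C (b' i))).eval (a i + (p : R) ^ 2) = 0)
    (hbb : ∀ i, b' i - b i ∈ maximalIdeal R)
    (hun : ∀ T : (ResidueField R)[X][X], T ≠ 0 →
      (∀ l, T.coeff l ≠ 0 → (T.coeff l).natDegree + e * l + 1 ≤ e * (G.natDegree - 1)) →
      ∃ i, (T.eval (C (residue R (b i)))).eval (residue R (a i)) ≠ 0)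
    (Γ : MvPolynomial (Fin N) R) (hΓ : Γ ≠ 0) :
    ∃ U Y : R[X], U.Monic ∧ U.natDegree = N ∧ U ∣ G.eval Y ∧
      MvPolynomial.eval (fun i : Fin N => U.coeff i) Γ ≠ 0 := by
  obtain ⟨U₀, Y₀, hN, hbase, D, hD1, hD2, hD3⟩ :=
    Pool.Agent.Helper12.SYM.start hG hr hwt hbig (p : R) hp a b b' ha hb hd hb' hbb hun
  set S : Set (Fin N → R) := {u | ∃ U Y, Near G U₀ Y₀ U Y ∧ ∀ i : Fin N, U.coeff i = u i} with hS
  set u₀ : Fin N → R := fun i => U₀.coeff i with hu₀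
  have hmem : ∀ (δ : R) (x : Fin N → R), u₀ + δ • x ∈ S →
      ∃ Y, Near G U₀ Y₀ (U₀ + C δ * polyOf x) Y := by
    rintro δ x ⟨U, Y, hUY, hx⟩
    refine ⟨Y, ?_⟩
    have := eq_add_polyOf hbase.monicU hUY.monic hN ((hUY.natDegree hbase).trans hN) δ x
      (fun i => by rw [hx i]; simp [hu₀])
    rwa [this] at hUY
  obtain ⟨u, ⟨U, Y, hUY, hu⟩, hne⟩ := Pool.Agent.Helper61.SYM.dens p hp0 hp hsep S u₀
    ⟨U₀, Y₀, ⟨hbase.monicU, hbase.dvd, rfl, by rw [sub_self, Polynomial.map_zero]; exact dvd_zero _⟩,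
      fun i => rfl⟩
    (by
      intro δ₁ δ₂ x y hδ hx hy
      obtain ⟨Y₁, h₁⟩ := hmem δ₁ x hx
      obtain ⟨Y₂, h₂⟩ := hmem δ₂ y hy
      obtain ⟨U₃, Y₃, Z, h₃, h3e⟩ := plus hbase h₁ h₂ δ₁ δ₂ hδ _ _ rfl rfl
      refine ⟨fun i => Z.coeff i, U₃, Y₃, h₃, fun i => ?_⟩
      rw [h3e]
      simp only [coeff_add, coeff_C_mul, coeff_polyOf, Fin.is_lt, dite_true, Fin.eta, Pi.add_apply,
        Pi.smul_apply, smul_eq_mul, hu₀])
    (fun i j => (D i).coeff j)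
    (by
      intro i
      obtain ⟨Y, hY⟩ := hD2 i
      refine ⟨_, Y, hY, fun j => ?_⟩
      rw [coeff_add, coeff_C_mul]
      rfl)
    hD3 Γ hΓ
  refine ⟨U, Y, hUY.monic, (hUY.natDegree hbase).trans hN, hUY.dvd, ?_⟩
  have : (fun i : Fin N => U.coeff i) = u := funext hu
  rw [this]; exact hne

end Pool.Agent.Helper16.SYM
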