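import Pool.Agent.Helper16.SYM.CurveDense
import Pool.Agent.Helper16.SYM.Esc
import Pool.Agent.Helper50.SYM.C1
import Pool.Agent.Helper39.SYM.C2
import Pool.Agent.Helper52.SYM_C3
import Pool.Agent.Helper57.SYM.C4

/-!
# The master theorem
-/

namespace Pool.Agent.Helper16.SYM

open Polynomial
open scoped TensorProduct

universe u

/-- Clearing denominators in a tensor. -/
theorem clear_den {K : Type u} [Field K] {A : Type u} [CommRing A] [Algebra K A] {O : Type u}
    [CommRing O] [Algebra K O] (s : O) (ψ : A →ₐ[K] Localization.Away s) {N : ℕ}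
    (b : ⨂[K] _ : Fin N, A) :
    ∃ (m : ℕ) (z : ⨂[K] _ : Fin N, O),
      mapT N (Algebra.algHom K O (Localization.Away s))
        (PiTensorProduct.tprod K fun _ : Fin N => s ^ m) * mapT N ψ b =
      mapT N (Algebra.algHom K O (Localization.Away s)) z := by
  set ι := Algebra.algHom K O (Localization.Away s) with hι
  induction b using PiTensorProduct.induction_on with
  | smul_tprod r f =>
    choose n a ha using fun i => IsLocalization.Away.surj s (ψ (f i))
    refine ⟨∑ i, n i, r • PiTensorProduct.tprod K fun i =>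
      a i * s ^ (∑ j ∈ Finset.univ.erase i, n j), ?_⟩
    rw [map_smul, mapT_tprod, mapT_tprod, map_smul, mapT_tprod, mul_smul_comm,
      PiTensorProduct.tprod_mul_tprod]
    congr 2
    funext i
    have h1 : ι (a i) = ψ (f i) * ι s ^ n i := (ha i).symm
    rw [Pi.mul_apply, map_mul, map_pow, map_pow, h1, ← Finset.add_sum_erase _ n (Finset.mem_univ i),
      pow_add]
    ring
  | add x y hx hy =>
    obtain ⟨m, z, h⟩ := hx
    obtain ⟨m', z', h'⟩ := hy
    refine ⟨m + m', (PiTensorProduct.tprod K fun _ : Fin N => s ^ m') * z +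
      (PiTensorProduct.tprod K fun _ : Fin N => s ^ m) * z', ?_⟩
    have h1 : (PiTensorProduct.tprod K fun _ : Fin N => s ^ (m + m')) =
        (PiTensorProduct.tprod K fun _ : Fin N => s ^ m) *
        (PiTensorProduct.tprod K fun _ : Fin N => s ^ m') := by
      rw [PiTensorProduct.tprod_mul_tprod]
      congr 1
      funext i
      exact pow_add _ _ _
    rw [h1, map_add (mapT N ψ), map_mul (mapT N ι), map_add (mapT N ι), map_mul (mapT N ι),
      map_mul (mapT N ι), ← h, ← h']
    ring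

/-- The tensor trick, uniform in the target. -/
theorem map_ne_zero_all {K : Type u} [Field K] {A : Type u} [CommRing A] [Algebra K A] {N : ℕ}
    (z : ⨂[K] _ : Fin N, A) (hz : z ≠ 0) :
    ∃ W : Submodule K A, W.FG ∧ ∀ (B : Type u) [CommRing B] [Algebra K B] (ψ : A →ₐ[K] B),
      (∀ a ∈ W, ψ a = 0 → a = 0) → mapT N ψ z ≠ 0 := by
  obtain ⟨W, hW, h⟩ := Pool.Agent.Helper57.SYM.exists_fixed z
  refine ⟨W, hW, fun B _ _ ψ' hψ h0 => hz ?_⟩
  rw [mapT_eq] at h0
  set ψ := ψ'.toLinearMap with hψ'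
  have hker : LinearMap.ker (ψ.comp W.subtype) = ⊥ := by
    rw [LinearMap.ker_eq_bot']
    intro a ha
    exact Subtype.ext (hψ a.1 a.2 ha)
  obtain ⟨g, hg⟩ := (ψ.comp W.subtype).exists_leftInverse_of_injective hker
  have h1 : ∀ a ∈ W, ((W.subtype.comp g).comp ψ) a = a := by
    intro a ha
    have := congrArg (fun l : W →ₗ[K] W => ((l ⟨a, ha⟩ : W) : A)) hg
    exact this
  have h2 := h _ h1
  rw [← h2, PiTensorProduct.map_comp]
  change PiTensorProduct.map _ (PiTensorProduct.map _ z) = 0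
  rw [h0, map_zero]

theorem exists_lift_away {K : Type u} [Field K] {O k : Type u} [CommRing O] [Algebra K O] [Field k]
    [Algebra K k] (s : O) (f : O →ₐ[K] k) (h : f s ≠ 0) :
    ∃ f' : Localization.Away s →ₐ[K] k, f'.comp (Algebra.algHom K O (Localization.Away s)) = f := by
  refine ⟨IsLocalization.Away.liftAlgHom s (isUnit_iff_ne_zero.mpr h), ?_⟩
  refine AlgHom.ext fun x => ?_
  exact IsLocalization.Away.lift_eq s (isUnit_iff_ne_zero.mpr h) x

/-- C5: the master theorem -/
theorem master (K : Type u) [Field K] [NumberField K] (A : Type u) [CommRing A] [Algebra K A]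
    [Algebra.FiniteType K A] {G : K[X][X]} (hG : G.Monic) (hr : 0 < G.natDegree)
    (hirr : Irreducible (G.map (mapRingHom (algebraMap K (AlgebraicClosure K)))))
    (M : Type u) [Field M] [Algebra K M] (t z : M) (ht : Transcendental K t)
    (hz : G.eval₂ (aeval t : K[X] →ₐ[K] M).toRingHom z = 0)
    (hM : IntermediateField.adjoin K {t, z} = ⊤)
    (hesc : ∀ W : Submodule K A, W.FG → ∃ ψ : A →ₐ[K] M, ∀ a ∈ W, ψ a = 0 → a = 0) :
    ∃ N₀ : ℕ, ∀ N ≥ N₀, PDA K (symPow K A N) := by
  classical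
  obtain ⟨N₀, hN₀⟩ := curve_dense K hG hr hirr
  refine ⟨N₀, fun N hN => ?_⟩
  obtain ⟨L, hLfin, hL⟩ := hN₀ N hN
  refine ⟨L, inferInstance, inferInstance, hLfin, fun b hb => ?_⟩
  by_contra hb0
  have hGi : Irreducible G := hG.irreducible_of_irreducible_map _ _ hirr
  have hb0' : (b : ⨂[K] _ : Fin N, A) ≠ 0 := fun h => hb0 (Subtype.ext h)
  obtain ⟨W, hW, hWt⟩ := map_ne_zero_all (b : ⨂[K] _ : Fin N, A) hb0'
  obtain ⟨ψ, hψ⟩ := hesc W hW
  obtain ⟨g, hg, hg'⟩ := exists_local hG hGi ht hz hM ψ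
  set s := AdjoinRoot.of G g with hs
  obtain ⟨ψ', hψ'⟩ := hg'
  have hne : mapT N ψ' (b : ⨂[K] _ : Fin N, A) ≠ 0 :=
    hWt _ ψ' fun a ha h => hψ a ha (hψ' a h)
  obtain ⟨m, zz, hzz⟩ := clear_den s ψ' (b : ⨂[K] _ : Fin N, A)
  set ι := Algebra.algHom K (AdjoinRoot G) (Localization.Away s) with hι
  have hιs : IsUnit (ι s) := IsLocalization.Away.algebraMap_isUnit s
  have hunit : ∀ n, IsUnit (mapT N ι (PiTensorProduct.tprod K fun _ : Fin N => s ^ n)) := by
    intro n
    obtain ⟨w, hw⟩ := (hιs.pow n).exists_right_inv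
    rw [mapT_tprod]
    refine IsUnit.of_mul_eq_one (PiTensorProduct.tprod K fun _ : Fin N => w) ?_
    rw [PiTensorProduct.tprod_mul_tprod, PiTensorProduct.one_def]
    congr 1
    funext i
    rw [Pi.mul_apply, map_pow, hw]
    rfl
  set S : ⨂[K] _ : Fin N, AdjoinRoot G := PiTensorProduct.tprod K fun _ : Fin N => s ^ 1 with hS
  have hz₁ : zz * S ≠ 0 := by
    intro h
    have h1 := congrArg (mapT N ι) h
    rw [map_mul, map_zero, (hunit 1).mul_left_eq_zero, ← hzz, (hunit m).mul_right_eq_zero] at h1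
    exact hne h1
  have hdom := Pool.Agent.Helper50.SYM.isDomain_tensor hG hr hirr N
  obtain ⟨Γ, hΓ, hΓφ⟩ := Pool.Agent.Helper39.SYM.exists_gamma hG hr (zz * S) hz₁
  obtain ⟨U, Y, hU, hUN, hUY, hUΓ⟩ := hL (MvPolynomial.map (algebraMap K L) Γ) (by
    intro h
    exact hΓ (MvPolynomial.map_injective _ (algebraMap K L).injective (by rw [h, map_zero])))
  set k := AlgebraicClosure K with hk
  set Uk := U.map (algebraMap L k) with hUk
  obtain ⟨τ, hτ⟩ := exists_roots_fin (hU.map (algebraMap L k)) (N := N)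
    (by rw [hU.natDegree_map]; exact hUN)
  set y : Fin N → k := fun i => (Y.map (algebraMap L k)).eval (τ i) with hy
  have hroot : ∀ i, G.eval₂ (aeval (τ i) : K[X] →ₐ[K] k) (y i) = 0 := by
    intro i
    set ρ : L[X] →+* k := (evalRingHom (τ i)).comp (mapRingHom (algebraMap L k)) with hρ
    have h1 : ρ U = 0 := by
      have h0 : Uk = ∏ i, (X - C (τ i)) := hτ
      change Uk.eval (τ i) = 0
      rw [h0, eval_prod]
      exact Finset.prod_eq_zero (Finset.mem_univ i) (by simp)
    obtain ⟨Q, hQ⟩ := hUY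
    have h2 := congrArg ρ hQ
    rw [map_mul, h1, zero_mul, eval, hom_eval₂, RingHom.comp_id, eval₂_map] at h2
    have h3 : ρ.comp (mapRingHom (algebraMap K L)) =
        ((aeval (τ i) : K[X] →ₐ[K] k) : K[X] →+* k) := by
      apply Polynomial.ringHom_ext
      · intro a
        simp [hρ]
        rfl
      · simp [hρ]
    rw [h3] at h2
    exact h2
  set ev : Fin N → (AdjoinRoot G →ₐ[K] k) := fun i =>
    AdjoinRoot.liftAlgHom G (aeval (τ i) : K[X] →ₐ[K] k) (y i) (hroot i) with hev
  have hevX : ∀ i, ev i (AdjoinRoot.of G X) = τ i := fun i => by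
    rw [hev]; simp only [AdjoinRoot.liftAlgHom_of, aeval_X]
  have hnz : evT ev (zz * S) ≠ 0 := by
    apply hΓφ
    intro h
    apply hUΓ
    simp only [hevX] at h
    rw [← hτ] at h
    apply (algebraMap L k).injective
    rw [map_zero, ← h, MvPolynomial.eval_map, MvPolynomial.aeval_def,
      ← MvPolynomial.coe_eval₂Hom, ← MvPolynomial.coe_eval₂Hom, MvPolynomial.coe_eval₂Hom,
      MvPolynomial.coe_eval₂Hom, MvPolynomial.hom_eval₂, ← IsScalarTower.algebraMap_eq]
    congr 1
    funext i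
    exact (coeff_map _ _).symm
  rw [map_mul] at hnz
  have hzz0 : evT ev zz ≠ 0 := left_ne_zero_of_mul hnz
  have hS0 : evT ev S ≠ 0 := right_ne_zero_of_mul hnz
  have hevs : ∀ i, ev i s ≠ 0 := by
    intro i h
    apply hS0
    rw [hS, evT_tprod]
    exact Finset.prod_eq_zero (Finset.mem_univ i) (by rw [map_pow, h, pow_one])
  choose ev' hev'ι using fun i => exists_lift_away s (ev i) (hevs i)
  set φ : Fin N → (A →ₐ[K] k) := fun i => (ev' i).comp ψ' with hφ
  have hφb : evT φ (b : ⨂[K] _ : Fin N, A) ≠ 0 := by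
    intro h
    apply hzz0
    have h1 := congrArg (evT ev') hzz
    rw [map_mul, evT_mapT, evT_mapT, evT_mapT] at h1
    have h3 : (fun i => (ev' i).comp ι) = ev := funext hev'ι
    rw [h3] at h1
    have h2 : evT (fun i => (ev' i).comp ψ') (b : ⨂[K] _ : Fin N, A) = 0 := h
    rw [h2, mul_zero] at h1
    exact h1.symm
  have hperm : ∀ σ : k ≃ₐ[L] k, ∃ π : Equiv.Perm (Fin N), ∀ i, σ (τ i) = τ (π i) := by
    intro σ
    apply exists_perm (fun i => σ (τ i)) τ
    have h1 : Uk.map (σ : k →+* k) = Uk := by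
      rw [hUk, Polynomial.map_map]
      congr 1
      ext x
      exact σ.commutes x
    have h2 : ∀ f : Fin N → k, (∏ i, (X - C (f i))).roots = Multiset.map f Finset.univ.val := by
      intro f
      have h3 : (∏ i, (X - C (f i))) =
          (Multiset.map (fun a => X - C a) (Multiset.map f Finset.univ.val)).prod := by
        rw [Multiset.map_map]; rfl
      rw [h3, roots_multiset_prod_X_sub_C]
    rw [← h2, ← h2]
    have h0 : Uk = ∏ i, (X - C (τ i)) := hτ
    rw [← h0, ← h1, h0, Polynomial.map_prod]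
    congr 1
    refine Finset.prod_congr rfl fun i _ => ?_
    simp
  have hgal : ∀ σ : k ≃ₐ[L] k, ∃ π : Equiv.Perm (Fin N), ∀ i a, σ (φ i a) = φ (π i) a := by
    intro σ
    obtain ⟨π, hπ⟩ := hperm σ
    refine ⟨π, fun i a => ?_⟩
    set σK : k →ₐ[K] k := (σ.restrictScalars K).toAlgHom with hσK
    have hy' : σ (y i) = y (π i) := by
      have h1 : (Y.map (algebraMap L k)).map (σ : k →+* k) = Y.map (algebraMap L k) := by
        rw [Polynomial.map_map]
        congr 1
        ext x
        exact σ.commutes x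
      have h2 : σ (y i) = ((Y.map (algebraMap L k)).map (σ : k →+* k)).eval (σ (τ i)) := by
        exact (eval_map_apply (f := (σ : k →+* k)) (p := Y.map (algebraMap L k)) (τ i)).symm
      rw [h2, h1, hπ]
    have h1 : σK.comp (ev i) = ev (π i) := by
      apply AdjoinRoot.algHom_ext'
      · apply Polynomial.algHom_ext
        change σ (ev i (AdjoinRoot.of G X)) = ev (π i) (AdjoinRoot.of G X)
        rw [hevX, hevX, hπ]
      · change σ (ev i (AdjoinRoot.root G)) = ev (π i) (AdjoinRoot.root G)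
        simp only [hev, AdjoinRoot.liftAlgHom_root]
        exact hy'
    have h2 : σK.comp (ev' i) = ev' (π i) := by
      apply IsLocalization.algHom_ext (Submonoid.powers s)
      change (σK.comp (ev' i)).comp ι = (ev' (π i)).comp ι
      rw [AlgHom.comp_assoc, hev'ι, hev'ι, h1]
    exact DFunLike.congr_fun h2 (ψ' a)
  have halg : IsAlgClosure L k := ⟨inferInstance, inferInstance⟩
  have hmem := Pool.Agent.Helper52.SYM.evT_mem (K := K) (L := L) (k := k) φ hgal
  let χ : symPow K A N →ₐ[K] L.toSubalgebra :=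
    ((evT φ).comp (symPow K A N).val).codRestrict L.toSubalgebra (fun b' => by
      obtain ⟨x, hx⟩ := hmem b'
      change evT φ (b' : ⨂[K] _ : Fin N, A) ∈ L
      rw [← hx]
      exact x.2)
  have hχ : χ b = 0 := hb χ
  exact hφb (congrArg Subtype.val hχ)

end Pool.Agent.Helper16.SYM
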