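import Pool.Agent.Helper16.SYM.Det
import Pool.Agent.Helper16.SYM.Defs

/-!
# The composition law
-/

namespace Pool.Agent.Helper16.SYM

open Polynomial IsLocalRing Module

section Quo

variable {A : Type*} [CommRing A]

theorem quo_spec (G : A[X]) (y : A) : (X - C y) * (G /ₘ (X - C y)) + C (G.eval y) = G := by
  have h := modByMonic_add_div G (X - C y)
  rw [modByMonic_X_sub_C_eq_C_eval] at h
  rw [add_comm]; exact h

theorem quo_eval_self (G : A[X]) (y : A) :
    (G /ₘ (X - C y)).eval y = (derivative G).eval y := by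
  have h := congrArg (fun p => (derivative p).eval y) (quo_spec G y)
  simp only [derivative_add, derivative_mul, derivative_sub, derivative_X, derivative_C, sub_zero,
    one_mul, add_zero, eval_add, eval_mul, eval_sub, eval_X, eval_C, sub_self, zero_mul] at h
  exact h

theorem eval_sub_eval (G : A[X]) (y w : A) :
    G.eval w - G.eval y = (w - y) * (G /ₘ (X - C y)).eval w := by
  have h := congrArg (fun p => p.eval w) (quo_spec G y)
  simp only [eval_add, eval_mul, eval_sub, eval_X, eval_C] at h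
  rw [← h]; ring

/-- `quo` at nearby points. -/
theorem dvd_quo_eval_sub (G : A[X]) (u y y₁ y₂ : A) (h₁ : u ∣ y₁ - y) (h₂ : u ∣ y₂ - y) :
    u ∣ (G /ₘ (X - C y₁)).eval y₂ - (derivative G).eval y := by
  rw [← Ideal.mem_span_singleton, ← Ideal.Quotient.mk_eq_mk_iff_sub_mem]
  set q := Ideal.Quotient.mk (Ideal.span {u})
  have e₁ : q y₁ = q y :=
    (Ideal.Quotient.mk_eq_mk_iff_sub_mem _ _).mpr (Ideal.mem_span_singleton.mpr h₁)
  have e₂ : q y₂ = q y :=
    (Ideal.Quotient.mk_eq_mk_iff_sub_mem _ _).mpr (Ideal.mem_span_singleton.mpr h₂)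
  rw [← eval_map_apply, ← eval_map_apply, map_divByMonic q (monic_X_sub_C y₁), Polynomial.map_sub,
    map_X, map_C, e₁, e₂, quo_eval_self, derivative_map]

end Quo


section Ring

variable {A : Type*} [CommRing A] {G : A[X]}

theorem root_sub_mul_quo (y : A) :
    (AdjoinRoot.root G - AdjoinRoot.of G y) * AdjoinRoot.mk G (G /ₘ (X - C y)) =
      -AdjoinRoot.of G (G.eval y) := by
  have h := congrArg (AdjoinRoot.mk G) (quo_spec G y)
  rw [AdjoinRoot.mk_self, map_add, map_mul, map_sub, AdjoinRoot.mk_X, AdjoinRoot.mk_C,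
    AdjoinRoot.mk_C] at h
  exact eq_neg_of_add_eq_zero_left h

theorem natDegree_quo_lt [Nontrivial A] (hr : 0 < G.natDegree) (y : A) :
    (G /ₘ (X - C y)).natDegree < G.natDegree := by
  rw [natDegree_divByMonic G (monic_X_sub_C y), natDegree_X_sub_C]
  omega

theorem mk_quo_eq_sum [Nontrivial A] (hr : 0 < G.natDegree) (y : A) :
    AdjoinRoot.mk G (G /ₘ (X - C y)) = ∑ j ∈ Finset.range G.natDegree,
      AdjoinRoot.of G ((G /ₘ (X - C y)).coeff j) * AdjoinRoot.root G ^ j := by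
  conv_lhs => rw [as_sum_range_C_mul_X_pow' (G /ₘ (X - C y)) (natDegree_quo_lt hr y)]
  rw [map_sum]
  refine Finset.sum_congr rfl fun j _ => ?_
  rw [map_mul, map_pow, AdjoinRoot.mk_X, AdjoinRoot.mk_C]

theorem coeff_quo_top (hG : G.Monic) (hr : 0 < G.natDegree) (y : A) :
    (G /ₘ (X - C y)).coeff (G.natDegree - 1) = 1 := by
  rw [coeff_divByMonic_X_sub_C, Nat.sub_add_cancel hr, Finset.Icc_self, Finset.sum_singleton,
    Nat.sub_self, pow_zero, one_mul]
  exact hG

/-- The functional `x ↦ DD x θ` on multiples of `θ`. -/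
theorem dvd_DD_mul (hG : G.Monic) [Nontrivial A] (hr : 0 < G.natDegree) (y u g : A)
    (φ θ w : AdjoinRoot G) (hφ : u ∣ DD hG φ θ)
    (h : θ * AdjoinRoot.mk G (G /ₘ (X - C y)) = -(AdjoinRoot.of G g * φ)) :
    u ∣ DD hG (θ * w) θ := by
  have key : ∀ k < G.natDegree, u ∣ DD hG (AdjoinRoot.root G ^ k * θ) θ := by
    intro k hk
    by_cases hk' : k + 1 < G.natDegree
    · rw [DD_root_pow_mul hG k hk']; exact dvd_zero _
    · have hk2 : k = G.natDegree - 1 := by omega
      subst hk2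
      have h1 := congrArg (DDlin hG hr θ) h
      rw [mk_quo_eq_sum hr, Finset.mul_sum, map_sum, map_neg] at h1
      obtain ⟨m, hm⟩ : ∃ m, G.natDegree = m + 1 := ⟨G.natDegree - 1, by omega⟩
      rw [hm, Finset.sum_range_succ] at h1
      have h2 : ∀ j ∈ Finset.range m, DDlin hG hr θ (θ * (AdjoinRoot.of G
          ((G /ₘ (X - C y)).coeff j) * AdjoinRoot.root G ^ j)) = 0 := by
        intro j hj
        rw [Finset.mem_range] at hj
        have : θ * (AdjoinRoot.of G ((G /ₘ (X - C y)).coeff j) * AdjoinRoot.root G ^ j) =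
            ((G /ₘ (X - C y)).coeff j) • (AdjoinRoot.root G ^ j * θ) := by
          rw [Algebra.smul_def, AdjoinRoot.algebraMap_eq]; ring
        rw [this, map_smul, DDlin_apply, DD_root_pow_mul hG j (by omega), smul_zero]
      rw [Finset.sum_eq_zero h2, zero_add] at h1
      have h3 : (G /ₘ (X - C y)).coeff m = 1 := by
        have := coeff_quo_top hG hr y
        rwa [hm, Nat.add_sub_cancel] at this
      rw [h3, map_one, one_mul, DDlin_apply] at h1
      have h4 : AdjoinRoot.of G g * φ = g • φ := by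
        rw [Algebra.smul_def, AdjoinRoot.algebraMap_eq]
      rw [h4, map_smul, DDlin_apply] at h1
      rw [hm, Nat.add_sub_cancel, mul_comm, h1, smul_eq_mul]
      exact (Dvd.dvd.mul_left hφ _).neg_right
  obtain ⟨c, hc⟩ : ∃ c : Fin G.natDegree → A, w = ∑ k, c k • pbas hG k :=
    ⟨fun k => (pbas hG).repr w k, ((pbas hG).sum_repr w).symm⟩
  rw [← DDlin_apply hG hr, hc, Finset.mul_sum, map_sum]
  refine Finset.dvd_sum fun k _ => ?_
  have : θ * (c k • pbas hG k) = c k • (AdjoinRoot.root G ^ (k : ℕ) * θ) := by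
    rw [pbas_apply, Algebra.smul_def, Algebra.smul_def]; ring
  rw [this, map_smul, DDlin_apply, smul_eq_mul]
  exact Dvd.dvd.mul_left (key k k.2) _

/-- If `u` divides `DD x θ` it divides `DD (w x) θ`. -/
theorem dvd_DD_of_mul (hG : G.Monic) [Nontrivial A] (hr : 0 < G.natDegree) (y u g : A)
    (φ θ x w : AdjoinRoot G) (hφ : u ∣ DD hG φ θ)
    (h : θ * AdjoinRoot.mk G (G /ₘ (X - C y)) = -(AdjoinRoot.of G g * φ))
    (hT : IsCoprime (DD hG 1 θ) u) (hx : u ∣ DD hG x θ) : u ∣ DD hG (w * x) θ := by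
  obtain ⟨v, hv⟩ := exists_cramer hG hr x θ
  refine (hT.symm.dvd_of_dvd_mul_left ?_)
  have h1 : (DD hG 1 θ) • (w * x) = (DD hG x θ) • w + θ * (v * w) := by
    rw [Algebra.smul_def, Algebra.smul_def, AdjoinRoot.algebraMap_eq]
    calc _ = w * (AdjoinRoot.of G (DD hG 1 θ) * x) := by ring
      _ = _ := by rw [hv]; ring
  have h2 := congrArg (DDlin hG hr θ) h1
  rw [map_smul, map_add, map_smul, DDlin_apply, DDlin_apply, DDlin_apply, smul_eq_mul,
    smul_eq_mul] at h2
  rw [h2]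
  exact dvd_add (Dvd.dvd.mul_right hx _) (dvd_DD_mul hG hr y u g φ θ _ hφ h)

/-- The new point. -/
theorem dvd_eval_of_DD (hG : G.Monic) [Nontrivial A] (hr : 0 < G.natDegree) (y u g : A)
    (φ θ : AdjoinRoot G) (hφ : u ∣ DD hG φ θ)
    (h : θ * AdjoinRoot.mk G (G /ₘ (X - C y)) = -(AdjoinRoot.of G g * φ))
    (T' : A) (hT : u ∣ 1 - T' * DD hG 1 θ) :
    u ∣ G.eval (T' * DD hG (AdjoinRoot.root G) θ) := by
  obtain ⟨b, hb⟩ := hT
  have hcop : IsCoprime (DD hG 1 θ) u := ⟨T', b, by linear_combination -hb⟩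
  set y₃ := T' * DD hG (AdjoinRoot.root G) θ with hy₃
  have h1 : u ∣ DD hG (AdjoinRoot.root G - AdjoinRoot.of G y₃) θ := by
    rw [← DDlin_apply hG hr, map_sub, DDlin_apply, DDlin_apply, DD_of_one hG hr, hy₃]
    refine ⟨b * DD hG (AdjoinRoot.root G) θ, ?_⟩
    linear_combination DD hG (AdjoinRoot.root G) θ * hb
  have h2 := dvd_DD_of_mul hG hr y u g φ θ _ (AdjoinRoot.mk G (G /ₘ (X - C y₃))) hφ h hcop h1
  rw [mul_comm, root_sub_mul_quo] at h2
  rw [← DDlin_apply hG hr, map_neg, DDlin_apply, DD_of_one hG hr, dvd_neg] at h2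
  exact hcop.symm.dvd_of_dvd_mul_right h2

end Ring

end Pool.Agent.Helper16.SYM
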