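import Pool.Agent.Helper16.SYM.Plus
import Pool.Agent.Helper57.SYM.A1
import Pool.Agent.Helper85.SYM.A2
import Pool.Agent.Helper87.SYM.A3
import Pool.Agent.Helper49.SYM.A4

/-!
# The composition law, main statement
-/

namespace Pool.Agent.Helper16.SYM

open Polynomial IsLocalRing Module

theorem isCoprime_congr {A : Type*} [CommRing A] {a b u : A} (h : IsCoprime a u) (hb : u ∣ b - a) :
    IsCoprime b u := by
  obtain ⟨c, hc⟩ := hb
  have : b = a + u * c := by linear_combination hc
  rw [this]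
  exact IsCoprime.add_mul_left_left h c

theorem map_quo_eval {A B : Type*} [CommRing A] [CommRing B] (f : A →+* B) (G : A[X]) (y w : A) :
    f ((G /ₘ (X - C y)).eval w) = ((G.map f) /ₘ (X - C (f y))).eval (f w) := by
  rw [← eval_map_apply, map_divByMonic f (monic_X_sub_C y), Polynomial.map_sub, map_X, map_C]

theorem derivative_eval_map {A B : Type*} [CommRing A] [CommRing B] (f : A →+* B) (G : A[X])
    (w : A) : f ((derivative G).eval w) = (derivative (G.map f)).eval (f w) := by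
  rw [← eval_map_apply, derivative_map]

section

variable {R : Type*} [CommRing R] [IsLocalRing R] {G : R[X][X]} {e : ℕ} {U₀ Y₀ : R[X]}

theorem Base.coprime_quo (hb : Base G e U₀ Y₀) {Y₁ Y₂ : R[X]}
    (h₁ : U₀.map (residue R) ∣ (Y₁ - Y₀).map (residue R))
    (h₂ : U₀.map (residue R) ∣ (Y₂ - Y₀).map (residue R)) :
    IsCoprime (((G /ₘ (X - C Y₁)).eval Y₂).map (residue R)) (U₀.map (residue R)) := by
  have hu := hb.unram
  rw [← coe_mapRingHom, derivative_eval_map] at hu
  rw [← coe_mapRingHom, map_quo_eval]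
  refine isCoprime_congr hu (dvd_quo_eval_sub _ _ _ _ _ ?_ ?_)
  · rw [← map_sub]; exact h₁
  · rw [← map_sub]; exact h₂

theorem Near.natDegree (hb : Base G e U₀ Y₀) {U Y : R[X]} (h : Near G U₀ Y₀ U Y) :
    U.natDegree = U₀.natDegree := by
  rw [← h.monic.natDegree_map (residue R), h.resU, hb.monicU.natDegree_map]

theorem dvd_DD_root_sub (hG : G.Monic) (hr : 0 < G.natDegree) (V Z : R[X]) (hV : V ∣ G.eval Z) :
    V ∣ DD hG (AdjoinRoot.root G) (AdjoinRoot.root G - AdjoinRoot.of G Z) - Z := by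
  have h1 : AdjoinRoot.root G = AdjoinRoot.of G Z + (AdjoinRoot.root G - AdjoinRoot.of G Z) := by
    ring
  have h2 : DD hG (AdjoinRoot.root G) (AdjoinRoot.root G - AdjoinRoot.of G Z) =
      Z + DD hG (AdjoinRoot.root G - AdjoinRoot.of G Z)
        (AdjoinRoot.root G - AdjoinRoot.of G Z) := by
    conv_lhs => rw [← DDlin_apply hG hr]; arg 2; rw [h1]
    rw [map_add, DDlin_apply, DDlin_apply, DD_of_one hG hr, DD_one hG, mul_one]
  rw [h2, add_sub_cancel_left]
  by_cases hr2 : 0 + 1 < G.natDegree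
  · have := DD_root_pow_mul hG 0 hr2 (AdjoinRoot.root G - AdjoinRoot.of G Z)
    rw [pow_zero, one_mul] at this
    rw [this]; exact dvd_zero _
  · have hr1 : G.natDegree = 1 := by omega
    have hq : G /ₘ (X - C Z) = 1 := by
      have h3 := natDegree_quo_lt hr Z
      have h4 := coeff_quo_top hG hr Z
      rw [hr1, Nat.sub_self] at h4
      rw [eq_C_of_natDegree_eq_zero (p := G /ₘ (X - C Z)) (by omega), h4, C_1]
    have h5 := root_sub_mul_quo (G := G) Z
    rw [hq, map_one, mul_one] at h5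
    conv_rhs => arg 2; rw [h5]
    rw [← DDlin_apply hG hr, map_neg, DDlin_apply, DD_of_one hG hr]
    exact (Dvd.dvd.mul_right hV _).neg_right

theorem plus (hb : Base G e U₀ Y₀) {U₁ Y₁ U₂ Y₂ : R[X]} (h₁ : Near G U₀ Y₀ U₁ Y₁)
    (h₂ : Near G U₀ Y₀ U₂ Y₂) (δ₁ δ₂ : R) (hδ : δ₁ * δ₂ ∈ maximalIdeal R) (X₁ X₂ : R[X])
    (e₁ : U₁ = U₀ + C δ₁ * X₁) (e₂ : U₂ = U₀ + C δ₂ * X₂) :
    ∃ U₃ Y₃ Z : R[X], Near G U₀ Y₀ U₃ Y₃ ∧
      U₃ = U₀ + C δ₁ * X₁ + C δ₂ * X₂ + C (δ₁ * δ₂) * Z := by
  classical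
  have hG := hb.monic
  have hr := hb.pos
  set δ := δ₁ * δ₂ with hδdef
  have hδ0 : residue R δ = 0 := by rw [residue_eq_zero_iff]; exact hδ
  -- the composite of the two divisors
  have hc1 : IsCoprime ((quo G Y₁).eval Y₂) U₂ := by
    apply Pool.Agent.Helper57.SYM.isCoprime_of_residue h₂.monic
    rw [h₂.resU]
    exact hb.coprime_quo h₁.resY h₂.resY
  obtain ⟨Z, hVZ, hZ1, -⟩ := Pool.Agent.Helper57.SYM.compose h₁.dvd h₂.dvd hc1
  set V := U₁ * U₂ with hVdef
  clear_value V
  have hVm : V.Monic := hVdef ▸ h₁.monic.mul h₂.monic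
  have hVr : V.map (residue R) = (U₀.map (residue R)) ^ 2 := by
    rw [hVdef, Polynomial.map_mul, h₁.resU, h₂.resU, sq]
  have hVd : V.natDegree = 2 * U₀.natDegree := by
    rw [hVdef, h₁.monic.natDegree_mul h₂.monic, h₁.natDegree hb, h₂.natDegree hb]; ring
  have hZr : U₀.map (residue R) ∣ (Z - Y₀).map (residue R) := by
    have h3 : (Z - Y₀).map (residue R) = (Z - Y₁).map (residue R) + (Y₁ - Y₀).map (residue R) := by
      rw [← Polynomial.map_add]; congr 1; ring
    rw [h3]
    refine dvd_add ?_ h₁.resY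
    rw [← h₁.resU]
    exact Polynomial.map_dvd _ hZ1
  obtain ⟨s, hs1, hs2⟩ := Pool.Agent.Helper87.SYM.exists_s_of
    (fun {_} h1 h2 {_} h3 {_ _ _} h4 h5 h6 h7 tau xi =>
      Pool.Agent.Helper85.SYMA2.field_surj h1 h2 h3 h4 h5 h6 h7 tau xi)
    hb hVm hVr hZr (-(X₁ * X₂))
  obtain ⟨g, hg⟩ := hVZ
  -- elements of the coordinate ring
  set O := AdjoinRoot G with hO
  set root : O := AdjoinRoot.root G with hroot
  set Hz : O := AdjoinRoot.mk G (G /ₘ (X - C Z)) with hHz
  set γ : ℕ → R[X] := fun j => (s * (quo G Z).coeff j) %ₘ V with hγ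
  set β : ℕ → R[X] := fun j => (s * (quo G Z).coeff j) /ₘ V with hβ
  set γ' : O := ∑ j ∈ Finset.range G.natDegree, AdjoinRoot.of G (γ j) * root ^ j with hγ'
  set β' : O := ∑ j ∈ Finset.range G.natDegree, AdjoinRoot.of G (β j) * root ^ j with hβ'
  have hsH : AdjoinRoot.of G s * Hz = γ' + AdjoinRoot.of G V * β' := by
    rw [hHz, mk_quo_eq_sum hr, hγ', hβ', Finset.mul_sum, Finset.mul_sum,
      ← Finset.sum_add_distrib]
    refine Finset.sum_congr rfl fun j _ => ?_
    have h4 : s * (quo G Z).coeff j = γ j + V * β j := (modByMonic_add_div _ V).symm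
    have h5 := congrArg (AdjoinRoot.of G) h4
    rw [map_mul, map_add, map_mul] at h5
    unfold quo at h5
    linear_combination root ^ j * h5
  have hroot_quo : (root - AdjoinRoot.of G Z) * Hz = -(AdjoinRoot.of G V * AdjoinRoot.of G g) := by
    rw [hroot, hHz, root_sub_mul_quo, hg, map_mul]
  set θ' : O := -(AdjoinRoot.of G s * AdjoinRoot.of G g + β' * (root - AdjoinRoot.of G Z)) with hθ'
  set φ : O := AdjoinRoot.of G V + AdjoinRoot.of G (C δ) * γ' with hφ
  set θ : O := (root - AdjoinRoot.of G Z) + AdjoinRoot.of G (C δ) * θ' with hθ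
  have hγeq : γ' = AdjoinRoot.of G s * Hz - AdjoinRoot.of G V * β' := by rw [hsH]; ring
  have ha : φ * (root - AdjoinRoot.of G Z) = AdjoinRoot.of G V * θ := by
    rw [hφ, hθ, hθ', hγeq]
    linear_combination (AdjoinRoot.of G (C δ) * AdjoinRoot.of G s) * hroot_quo
  have hb' : θ * Hz = -(AdjoinRoot.of G g * φ) := by
    rw [hφ, hθ, hθ', hγeq]
    linear_combination (1 - AdjoinRoot.of G (C δ) * β') * hroot_quo
  -- the norm
  set c : ℕ → R[X] := fun j => (if j = 0 then V else 0) + C δ * γ j with hcdef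
  have hφc : φ = ∑ j ∈ Finset.range G.natDegree, AdjoinRoot.of G (c j) * root ^ j := by
    rw [hφ, hγ', Finset.mul_sum]
    have h6 : AdjoinRoot.of G V = ∑ j ∈ Finset.range G.natDegree,
        AdjoinRoot.of G (if j = 0 then V else 0) * root ^ j := by
      rw [Finset.sum_eq_single 0]
      · simp
      · intro j _ hj; simp [hj]
      · intro h; simp at h; omega
    rw [h6, ← Finset.sum_add_distrib]
    refine Finset.sum_congr rfl fun j _ => ?_
    rw [hcdef]
    simp only [map_add, map_mul]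
    ring
  have hcc : ∀ j < G.natDegree, ∀ i, 2 * U₀.natDegree ≤ i + e * j →
      (c j).coeff i = if j = 0 ∧ i = 2 * U₀.natDegree then 1 else 0 := by
    intro j hj i hi
    rw [hcdef]
    simp only [coeff_add, coeff_C_mul]
    have h7 : (γ j).coeff i = 0 := hs1 j hj i hi
    rw [h7, mul_zero, add_zero]
    by_cases hj0 : j = 0
    · subst hj0
      simp only [mul_zero, add_zero] at hi
      simp only [if_true, true_and]
      split_ifs with hi2
      · rw [hi2, ← hVd]; exact hVm
      · exact coeff_eq_zero_of_natDegree_lt (by omega)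
    · simp [hj0]
  obtain ⟨hn1, hn2⟩ := Pool.Agent.Helper49.SYM.norm_monic hG hr hb.wt hb.big c hcc
  rw [← hroot, ← hφc] at hn1 hn2
  have hnorm : Algebra.norm R[X] φ = V ^ (G.natDegree - 1) * DD hG φ θ := by
    rw [norm_eq_DD hG Z φ, ← hroot, ha, DD_smul_right hG hr]
  set Δ := DD hG φ θ with hΔ
  rw [hnorm] at hn1 hn2
  have hΔm : Δ.Monic := (hVm.pow _).of_mul_monic_left hn1
  have hΔd : Δ.natDegree = 2 * U₀.natDegree := by
    rw [(hVm.pow _).natDegree_mul hΔm, hVm.natDegree_pow, hVd] at hn2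
    obtain ⟨m, hm⟩ : ∃ m, G.natDegree = m + 1 := ⟨G.natDegree - 1, by omega⟩
    rw [hm, Nat.add_sub_cancel] at hn2
    have : m * (2 * U₀.natDegree) + Δ.natDegree = m * (2 * U₀.natDegree) + 2 * U₀.natDegree := by
      rw [hn2]; ring
    omega
  -- both elements vanish at the base divisor
  set q := Ideal.Quotient.mk (Ideal.span {U₀}) with hq
  have hq0 : ∀ a : R[X], q a = 0 ↔ U₀ ∣ a := fun a => by
    rw [hq, Ideal.Quotient.eq_zero_iff_mem, Ideal.mem_span_singleton]
  have hlift : G.eval₂ q (q Y₀) = 0 := by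
    rw [eval₂_at_apply, hq0]; exact hb.dvd
  set π : O →+* R[X] ⧸ Ideal.span {U₀} := AdjoinRoot.lift q (q Y₀) hlift with hπ
  have hπof : ∀ a, π (AdjoinRoot.of G a) = q a := fun a => AdjoinRoot.lift_of hlift
  have hπroot : π root = q Y₀ := AdjoinRoot.lift_root hlift
  have hπφ : π φ = 0 := by
    have h8 : π γ' = q (-(X₁ * X₂)) := by
      rw [hγ', map_sum]
      have h9 : q (∑ j ∈ Finset.range G.natDegree, ((s * (quo G Z).coeff j) %ₘ V) * Y₀ ^ j) =
          q (-(X₁ * X₂)) := by
        rw [← sub_eq_zero, ← map_sub, hq0]; exact hs2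
      rw [← h9, map_sum]
      refine Finset.sum_congr rfl fun j _ => ?_
      rw [map_mul, map_pow, hπof, hπroot, map_mul, map_pow]
    rw [hφ, map_add, map_mul, hπof, hπof, h8, ← map_mul, ← map_add, hq0]
    refine ⟨U₀ + C δ₁ * X₁ + C δ₂ * X₂, ?_⟩
    rw [hVdef, e₁, e₂, hδdef, C_mul]; ring
  have hπθ : π θ = 0 := by
    have h10 := congrArg π hb'
    rw [map_mul, map_neg, map_mul, hπφ, mul_zero, neg_zero] at h10
    have h11 : π Hz = q ((G /ₘ (X - C Z)).eval Y₀) := by
      rw [hπ, hHz, AdjoinRoot.lift_mk, eval₂_at_apply]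
    have h12 : IsCoprime ((G /ₘ (X - C Z)).eval Y₀) U₀ := by
      apply Pool.Agent.Helper57.SYM.isCoprime_of_residue hb.monicU
      refine hb.coprime_quo hZr ?_
      rw [sub_self, Polynomial.map_zero]; exact dvd_zero _
    obtain ⟨a, b, hab⟩ := h12
    have h13 := congrArg q hab
    rw [map_add, map_mul, map_mul, (hq0 U₀).mpr dvd_rfl, mul_zero, add_zero, map_one] at h13
    rw [h11] at h10
    calc π θ = π θ * (q a * q ((G /ₘ (X - C Z)).eval Y₀)) := by rw [h13, mul_one]
      _ = q a * (π θ * q ((G /ₘ (X - C Z)).eval Y₀)) := by ring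
      _ = 0 := by rw [h10, mul_zero]
  have hU0Δ : U₀ ∣ Δ := by
    have h14 := congrArg π (sum_det_update (pbas hG) (cols G φ θ) (1 : O))
    rw [map_sum, Finset.sum_eq_zero] at h14
    · rw [Algebra.smul_def, mul_one, AdjoinRoot.algebraMap_eq] at h14
      have h15 : π (AdjoinRoot.of G Δ) = 0 := h14.symm
      rw [hπof, hq0] at h15
      exact h15
    · intro j _
      rw [Algebra.smul_def, map_mul]
      have h16 : π (cols G φ θ j) = 0 := by
        unfold cols
        split_ifs
        · exact hπφ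
        · rw [map_mul, hπθ, mul_zero]
      rw [h16, mul_zero]
  obtain ⟨U₃, hU₃⟩ := hU0Δ
  have hU₃m : U₃.Monic := hb.monicU.of_mul_monic_left (hU₃ ▸ hΔm)
  -- first order behaviour
  have hDV : C δ ∣ Δ - V := by
    have h17 := DD_congr hG (C δ) φ (AdjoinRoot.of G V) γ' θ (root - AdjoinRoot.of G Z) θ' hφ hθ
    rw [DD_of_one hG hr, hroot, DD_one hG, mul_one] at h17
    exact h17
  have hZ' : C δ ∣ U₃ - (U₀ + C δ₁ * X₁ + C δ₂ * X₂) := by
    apply Pool.Agent.Helper57.SYM.C_dvd_of_monic_mul hb.monicU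
    have h18 : U₀ * (U₃ - (U₀ + C δ₁ * X₁ + C δ₂ * X₂)) = (Δ - V) + C δ * (X₁ * X₂) := by
      rw [mul_sub, ← hU₃, hVdef, e₁, e₂, hδdef, C_mul]; ring
    rw [h18]
    exact dvd_add hDV (dvd_mul_right _ _)
  obtain ⟨W, hW⟩ := hZ'
  have hU₃eq : U₃ = U₀ + C δ₁ * X₁ + C δ₂ * X₂ + C δ * W := by linear_combination hW
  have hmC : (C δ : R[X]).map (residue R) = 0 := by rw [map_C, hδ0, C_0]
  have hresU : U₃.map (residue R) = U₀.map (residue R) := by
    have h19 : (C δ₁ * X₁).map (residue R) = 0 := by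
      have := h₁.resU
      rw [e₁, Polynomial.map_add] at this
      exact left_eq_add.mp this.symm
    have h20 : (C δ₂ * X₂).map (residue R) = 0 := by
      have := h₂.resU
      rw [e₂, Polynomial.map_add] at this
      exact left_eq_add.mp this.symm
    rw [hU₃eq, Polynomial.map_add, Polynomial.map_add, Polynomial.map_add, h19, h20,
      Polynomial.map_mul, hmC]
    ring
  -- the second coordinate
  have hT1 : C δ ∣ DD hG 1 θ - 1 := by
    have h21 := DD_congr hG (C δ) 1 1 0 θ (root - AdjoinRoot.of G Z) θ' (by ring) hθ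
    rwa [hroot, DD_one hG] at h21
  have hTr : (DD hG 1 θ).map (residue R) = 1 := by
    obtain ⟨t, ht⟩ := hT1
    have : DD hG 1 θ = 1 + C δ * t := by linear_combination ht
    rw [this, Polynomial.map_add, Polynomial.map_mul, hmC, Polynomial.map_one]; ring
  have hTc : IsCoprime (DD hG 1 θ) U₃ := by
    apply Pool.Agent.Helper57.SYM.isCoprime_of_residue hU₃m
    rw [hTr]; exact isCoprime_one_left
  obtain ⟨T', b, hT'⟩ := hTc
  have hT'' : U₃ ∣ 1 - T' * DD hG 1 θ := ⟨b, by linear_combination -hT'⟩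
  have hU₃Δ : U₃ ∣ DD hG φ θ := ⟨U₀, by rw [← hΔ, hU₃, mul_comm]⟩
  refine ⟨U₃, T' * DD hG root θ, W, ⟨hU₃m, ?_, hresU, ?_⟩, hU₃eq⟩
  · exact dvd_eval_of_DD hG hr Z U₃ g φ θ hU₃Δ hb' T' hT''
  · -- residue of the second coordinate
    have h22 : C δ ∣ DD hG root θ - DD hG root (root - AdjoinRoot.of G Z) :=
      DD_congr hG (C δ) root root 0 θ (root - AdjoinRoot.of G Z) θ' (by ring) hθ
    obtain ⟨t, ht⟩ := h22
    obtain ⟨v, hv⟩ := dvd_DD_root_sub hG hr V Z ⟨g, hg⟩
    have h23 : DD hG root θ = Z + V * v + C δ * t := by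
      have : DD hG root (root - AdjoinRoot.of G Z) = Z + V * v := by
        linear_combination hv
      rw [← this]; linear_combination ht
    have h24 : (DD hG root θ).map (residue R) = Z.map (residue R) +
        (U₀.map (residue R)) ^ 2 * v.map (residue R) := by
      rw [h23, Polynomial.map_add, Polynomial.map_add, Polynomial.map_mul, Polynomial.map_mul,
        hVr, hmC]; ring
    have h25 : T'.map (residue R) = 1 - b.map (residue R) * U₀.map (residue R) := by
      have := congrArg (Polynomial.map (residue R)) hT'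
      rw [Polynomial.map_add, Polynomial.map_mul, Polynomial.map_mul, hTr, hresU,
        Polynomial.map_one] at this
      linear_combination this
    obtain ⟨w, hw⟩ := hZr
    rw [Polynomial.map_sub] at hw
    rw [Polynomial.map_sub, Polynomial.map_mul, h24, h25]
    refine ⟨w + U₀.map (residue R) * v.map (residue R) - b.map (residue R) *
      (Z.map (residue R) + U₀.map (residue R) ^ 2 * v.map (residue R)), ?_⟩
    linear_combination hw

end

end Pool.Agent.Helper16.SYM
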