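import Mathlib

/-!
# Symmetric powers
-/

namespace Pool.Agent.Helper16.SYM

open scoped TensorProduct

/-- The ring of symmetric tensors of order `N` over `A`: the invariants of the symmetric group in
the `N`-th tensor power of the `K`-algebra `A`. Its spectrum is the `N`-th symmetric power of
`Spec A` over `K`. -/
noncomputable def symPow (K : Type*) [CommRing K] (A : Type*) [CommRing A] [Algebra K A] (N : ℕ) :
    Subalgebra K (⨂[K] _ : Fin N, A) where
  carrier := {z | ∀ σ : Equiv.Perm (Fin N), PiTensorProduct.reindex K (fun _ => A) σ z = z}
  mul_mem' := by
    intro a b ha hb σ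
    have hmul : ∀ x y : ⨂[K] _ : Fin N, A, PiTensorProduct.reindex K (fun _ => A) σ (x * y) =
        PiTensorProduct.reindex K (fun _ => A) σ x *
        PiTensorProduct.reindex K (fun _ => A) σ y := by
      intro x y
      induction x using PiTensorProduct.induction_on with
      | smul_tprod r f =>
        induction y using PiTensorProduct.induction_on with
        | smul_tprod r' f' =>
          rw [PiTensorProduct.smul_tprod_mul_smul_tprod, map_smul, map_smul, map_smul,
            PiTensorProduct.reindex_tprod, PiTensorProduct.reindex_tprod,
            PiTensorProduct.reindex_tprod, PiTensorProduct.smul_tprod_mul_smul_tprod]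
          rfl
        | add y y' hy hy' => rw [mul_add, map_add, map_add, mul_add, hy, hy']
      | add x x' hx hx' => rw [add_mul, map_add, map_add, add_mul, hx, hx']
    rw [hmul, ha σ, hb σ]
  add_mem' := by
    intro a b ha hb σ
    rw [map_add, ha σ, hb σ]
  algebraMap_mem' := by
    intro r σ
    rw [Algebra.algebraMap_eq_smul_one, map_smul, PiTensorProduct.one_def,
      PiTensorProduct.reindex_tprod]
    rfl

end Pool.Agent.Helper16.SYM
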