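import Pool.Agent.Helper16.SYM.LocalDense
import Pool.Agent.Helper8.SYM_B3
import Pool.Agent.Helper26.SYM.B1B2
import Pool.Agent.Helper74.SYM.ExistsInverse

/-!
# Valuation rings in number fields
-/

namespace Pool.Agent.Helper16.SYM

open Polynomial IsLocalRing
open scoped NNReal

section VR

variable {F : Type*} [Field F] (v : Valuation F ℝ≥0)

theorem isUnit_iff_vr (x : v.valuationSubring) : IsUnit x ↔ v (x : F) = 1 := by
  constructor
  · rintro ⟨u, rfl⟩
    have h1 : v ((u : v.valuationSubring) : F) ≤ 1 := (u : v.valuationSubring).2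
    have h2 : v (((u⁻¹ : v.valuationSubringˣ) : v.valuationSubring) : F) ≤ 1 :=
      ((u⁻¹ : v.valuationSubringˣ) : v.valuationSubring).2
    have h3 : v ((u : v.valuationSubring) : F) *
        v (((u⁻¹ : v.valuationSubringˣ) : v.valuationSubring) : F) = 1 := by
      rw [← map_mul]
      have : ((u : v.valuationSubring) : F) *
          (((u⁻¹ : v.valuationSubringˣ) : v.valuationSubring) : F) = 1 := by
        exact congrArg (fun z : v.valuationSubring => (z : F)) u.mul_inv
      rw [this, map_one]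
    refine le_antisymm h1 ?_
    calc (1 : ℝ≥0) = _ * _ := h3.symm
      _ ≤ v ((u : v.valuationSubring) : F) * 1 := mul_le_mul_right h2 _
      _ = _ := mul_one _
  · intro h
    have hx0 : (x : F) ≠ 0 := by
      intro h0; rw [h0, map_zero] at h; exact zero_ne_one h
    have hinv : v ((x : F)⁻¹) ≤ 1 := by rw [map_inv₀, h, inv_one]
    refine IsUnit.of_mul_eq_one (⟨(x : F)⁻¹, hinv⟩ : v.valuationSubring) ?_
    apply Subtype.ext
    exact mul_inv_cancel₀ hx0

theorem mem_max_iff_vr (x : v.valuationSubring) : x ∈ maximalIdeal v.valuationSubring ↔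
    v (x : F) < 1 := by
  rw [mem_maximalIdeal, mem_nonunits_iff, isUnit_iff_vr]
  constructor
  · intro h; exact lt_of_le_of_ne x.2 h
  · intro h; exact h.ne

theorem sep_vr (p : v.valuationSubring) (hp : v (p : F) < 1) (x : v.valuationSubring)
    (h : ∀ k : ℕ, p ^ k ∣ x) : x = 0 := by
  have h1 : ∀ k : ℕ, v (x : F) ≤ v (p : F) ^ k := by
    intro k
    obtain ⟨y, hy⟩ := h k
    have h2 : (x : F) = (p : F) ^ k * (y : F) := by rw [hy]; simp
    rw [h2, map_mul, map_pow]
    calc _ ≤ v (p : F) ^ k * 1 := mul_le_mul_right y.2 _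
      _ = _ := mul_one _
  have h3 : v (x : F) = 0 := by
    by_contra h0
    obtain ⟨k, hk⟩ := exists_pow_lt_of_lt_one (pos_iff_ne_zero.mpr h0) hp
    exact absurd (h1 k) (not_le.mpr hk)
  apply Subtype.ext
  rw [map_eq_zero] at h3
  exact h3

end VR

section Ev

variable {A B : Type*} [CommRing A] [CommRing B]

theorem map_ev2 (f : A →+* B) (G : A[X][X]) (a b : A) :
    f ((G.eval (C b)).eval a) = ((G.map (mapRingHom f)).eval (C (f b))).eval (f a) := by
  rw [← eval_map_apply]
  congr 1
  have : (C (f b) : B[X]) = mapRingHom f (C b) := by simp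
  rw [this, eval_map_apply]
  rfl

theorem map_ev2' (f : A →+* B) (G : A[X][X]) (a b : A) :
    f (((derivative G).eval (C b)).eval a) =
      ((derivative (G.map (mapRingHom f))).eval (C (f b))).eval (f a) := by
  rw [map_ev2, derivative_map]

/-- Lifting bivariate polynomials to a subring. -/
theorem exists_lift2 {F : Type*} [Field F] (R : ValuationSubring F) (G : F[X][X]) (hG : G.Monic)
    (h : ∀ i j, (G.coeff j).coeff i ∈ R) :
    ∃ G' : R[X][X], G'.map (mapRingHom R.subtype) = G ∧ G'.natDegree = G.natDegree ∧ G'.Monic := by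
  apply lifts_and_natDegree_eq_and_monic _ hG
  rw [lifts_iff_coeff_lifts]
  intro j
  have : G.coeff j ∈ lifts R.subtype := by
    rw [lifts_iff_coeff_lifts]
    intro i
    exact ⟨⟨_, h i j⟩, rfl⟩
  rw [mem_lifts] at this
  obtain ⟨q, hq⟩ := this
  exact ⟨q, hq⟩

end Ev

end Pool.Agent.Helper16.SYM
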